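import Mathlib

set_option autoImplicit false

open Finset SimpleGraph

namespace Pool.Agent.H563Z.GT

/-- vertices of the three-chromatic core -/
abbrev WV (D : ℕ) := Option (Bool × Option (Fin D))

/-- adjacency of the core: the apex `none` is joined to all `(σ, some i)`; `(σ, p)` and `(τ, q)`
are joined when `σ ≠ τ` and `p = q` or one of `p`, `q` is `none`. -/
def wadj {D : ℕ} : WV D → WV D → Prop
  | none, none => False
  | none, some (_, p) => p ≠ none
  | some (_, p), none => p ≠ none
  | some (σ, p), some (τ, q) => σ ≠ τ ∧ (p = q ∨ p = none ∨ q = none)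

lemma wadj_symm {D : ℕ} (x y : WV D) (h : wadj x y) : wadj y x := by
  rcases x with _ | ⟨σ, p⟩ <;> rcases y with _ | ⟨τ, q⟩ <;> simp only [wadj] at h ⊢
  · exact h
  · exact h
  · refine ⟨h.1.symm, ?_⟩
    rcases h.2 with h | h | h
    · exact Or.inl h.symm
    · exact Or.inr (Or.inr h)
    · exact Or.inr (Or.inl h)

lemma wadj_irrefl {D : ℕ} (x : WV D) : ¬ wadj x x := by
  rcases x with _ | ⟨σ, p⟩ <;> simp [wadj]

/-- vertices of the forbidden graph -/
abbrev XV (s D : ℕ) := WV D ⊕ (Fin s × Fin D)

/-- adjacency of the forbidden graph: the join of the core with `s` independent sets -/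
def xadj {s D : ℕ} : XV s D → XV s D → Prop
  | Sum.inl x, Sum.inl y => wadj x y
  | Sum.inl _, Sum.inr _ => True
  | Sum.inr _, Sum.inl _ => True
  | Sum.inr x, Sum.inr y => x.1 ≠ y.1

/-- the forbidden graph -/
def FG (s D : ℕ) : SimpleGraph (XV s D) where
  Adj := xadj
  symm := ⟨fun x y h => by
    rcases x with x | x <;> rcases y with y | y <;> simp only [xadj] at h ⊢
    · exact wadj_symm _ _ h
    · exact h.symm⟩
  loopless := ⟨fun x h => by
    rcases x with x | x <;> simp only [xadj] at h
    · exact wadj_irrefl _ h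
    · exact h rfl⟩

variable {V : Type} {G : SimpleGraph V}

/-- embedding the join -/
lemma embed_join {s D : ℕ} (w : WV D → V) (hw : Function.Injective w)
    (hwa : ∀ x y, wadj x y → G.Adj (w x) (w y)) (T : Fin s → Finset V)
    (hT : ∀ l, D ≤ (T l).card) (hTT : ∀ l l', l ≠ l' → ∀ x ∈ T l, ∀ y ∈ T l', G.Adj x y)
    (hwT : ∀ l x, ∀ y ∈ T l, G.Adj (w x) y) : FG s D ⊑ G := by
  classical
  have hex : ∀ l, ∃ f : Fin D → V, Function.Injective f ∧ ∀ i, f i ∈ T l := by
    intro l
    obtain ⟨S, hS, hc⟩ := Finset.exists_subset_card_eq (hT l)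
    let e := S.equivFinOfCardEq hc
    refine ⟨fun i => (e.symm i : V), fun i j h => ?_, fun i => hS (e.symm i).2⟩
    exact e.symm.injective (Subtype.ext h)
  choose f hfi hfT using hex
  let g : XV s D → V := fun x => match x with
    | Sum.inl x => w x
    | Sum.inr x => f x.1 x.2
  have hadj : ∀ x y, (FG s D).Adj x y → G.Adj (g x) (g y) := by
    intro x y h
    rcases x with x | x <;> rcases y with y | y
    · exact hwa x y h
    · exact hwT _ _ _ (hfT _ _)
    · exact (hwT _ _ _ (hfT _ _)).symm
    · exact hTT _ _ h _ (hfT _ _) _ (hfT _ _)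
  refine ⟨⟨⟨g, fun {x y} h => hadj x y h⟩, ?_⟩⟩
  intro x y h
  change g x = g y at h
  rcases x with x | x <;> rcases y with y | y
  · exact congrArg _ (hw h)
  · exact absurd h (hwT _ _ _ (hfT _ _)).ne
  · exact absurd h (hwT _ _ _ (hfT _ _)).ne'
  · by_cases hl : x.1 = y.1
    · obtain ⟨x1, x2⟩ := x
      obtain ⟨y1, y2⟩ := y
      simp only at hl
      subst hl
      have : x2 = y2 := hfi _ h
      subst this
      rfl
    · exact absurd h (hTT _ _ hl _ (hfT _ _) _ (hfT _ _)).ne

/-- the core inside an apex with two sides -/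
lemma core_apex {D : ℕ} (v : V) (a b : Option (Fin D) → V) (ha : Function.Injective a)
    (hb : Function.Injective b) (hab : ∀ p q, G.Adj (a p) (b q))
    (hva : ∀ i, G.Adj v (a (some i))) (hvb : ∀ i, G.Adj v (b (some i)))
    (hva' : v ≠ a none) (hvb' : v ≠ b none) :
    ∃ w : WV D → V, Function.Injective w ∧ (∀ x y, wadj x y → G.Adj (w x) (w y)) ∧
      ∀ x, w x = v ∨ (∃ p, w x = a p) ∨ ∃ p, w x = b p := by
  let w : WV D → V := fun x => match x with
    | none => v
    | some (false, p) => a p
    | some (true, p) => b p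
  have hva2 : ∀ p, v ≠ a p := by
    rintro (_ | i)
    · exact hva'
    · exact (hva i).ne
  have hvb2 : ∀ p, v ≠ b p := by
    rintro (_ | i)
    · exact hvb'
    · exact (hvb i).ne
  refine ⟨w, ?_, ?_, ?_⟩
  · intro x y h
    rcases x with _ | ⟨_ | _, p⟩ <;> rcases y with _ | ⟨_ | _, q⟩
    · rfl
    · exact absurd h (hva2 q)
    · exact absurd h (hvb2 q)
    · exact absurd h (hva2 p).symm
    · rw [ha h]
    · exact absurd h (hab p q).ne
    · exact absurd h (hvb2 p).symm
    · exact absurd h (hab q p).ne'
    · rw [hb h]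
  · intro x y h
    rcases x with _ | ⟨_ | _, p⟩ <;> rcases y with _ | ⟨_ | _, q⟩ <;> simp only [wadj] at h
    · rcases q with _ | i
      · exact absurd rfl h
      · exact hva i
    · rcases q with _ | i
      · exact absurd rfl h
      · exact hvb i
    · rcases p with _ | i
      · exact absurd rfl h
      · exact (hva i).symm
    · exact absurd rfl h.1
    · exact hab p q
    · rcases p with _ | i
      · exact absurd rfl h
      · exact (hvb i).symm
    · exact (hab q p).symm
    · exact absurd rfl h.1
  · intro x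
    rcases x with _ | ⟨_ | _, p⟩
    · exact Or.inl rfl
    · exact Or.inr (Or.inl ⟨p, rfl⟩)
    · exact Or.inr (Or.inr ⟨p, rfl⟩)

/-- the core from an edge, a vertex and a matching -/
lemma core_matching {D : ℕ} (v a' b' : V) (m : Bool × Fin D → V) (hm : Function.Injective m)
    (hmm : ∀ i, G.Adj (m (false, i)) (m (true, i))) (hab : G.Adj a' b')
    (hva : v ≠ a') (hvb : v ≠ b') (h1 : ∀ x, G.Adj v (m x)) (h2 : ∀ x, G.Adj a' (m x))
    (h3 : ∀ x, G.Adj b' (m x)) :
    ∃ w : WV D → V, Function.Injective w ∧ (∀ x y, wadj x y → G.Adj (w x) (w y)) ∧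
      ∀ x, w x = v ∨ w x = a' ∨ w x = b' ∨ ∃ p, w x = m p := by
  let w : WV D → V := fun x => match x with
    | none => v
    | some (false, none) => a'
    | some (true, none) => b'
    | some (σ, some i) => m (σ, i)
  refine ⟨w, ?_, ?_, ?_⟩
  · intro x y h
    rcases x with _ | ⟨_ | _, _ | p⟩ <;> rcases y with _ | ⟨_ | _, _ | q⟩
    all_goals first
      | rfl
      | exact absurd h hva
      | exact absurd h hvb
      | exact absurd h hva.symm
      | exact absurd h hvb.symm
      | exact absurd h hab.ne
      | exact absurd h hab.ne'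
      | exact absurd h (h1 _).ne
      | exact absurd h (h1 _).ne'
      | exact absurd h (h2 _).ne
      | exact absurd h (h2 _).ne'
      | exact absurd h (h3 _).ne
      | exact absurd h (h3 _).ne'
      | (have := hm h; simp_all)
  · intro x y h
    rcases x with _ | ⟨_ | _, _ | p⟩ <;> rcases y with _ | ⟨_ | _, _ | q⟩ <;>
      simp only [wadj, ne_eq, not_true_eq_false, false_and, reduceCtorEq, not_false_eq_true,
        Option.some.injEq, or_false, true_and, Bool.false_eq_true, Bool.true_eq_false] at h
    all_goals first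
      | exact hab
      | exact hab.symm
      | exact h1 _
      | exact (h1 _).symm
      | exact h2 _
      | exact (h2 _).symm
      | exact h3 _
      | exact (h3 _).symm
      | (subst h; exact hmm _)
      | (subst h; exact (hmm _).symm)
  · intro x
    rcases x with _ | ⟨_ | _, _ | p⟩
    · exact Or.inl rfl
    · exact Or.inr (Or.inl rfl)
    · exact Or.inr (Or.inr (Or.inr ⟨_, rfl⟩))
    · exact Or.inr (Or.inr (Or.inl rfl))
    · exact Or.inr (Or.inr (Or.inr ⟨_, rfl⟩))

lemma pigeon {s : ℕ} (i0 j1 j2 : Fin (s + 2)) (χ : Fin s → Fin (s + 2))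
    (hχ : Function.Injective χ) (h0 : ∀ l, χ l ≠ i0) (h1 : ∀ l, χ l ≠ j1) (h2 : ∀ l, χ l ≠ j2)
    (h3 : j1 ≠ i0) (h4 : j2 ≠ i0) : j1 = j2 := by
  classical
  by_contra hne
  have hc : (insert i0 (insert j1 (insert j2 (univ.image χ)))).card = s + 3 := by
    rw [card_insert_of_notMem, card_insert_of_notMem, card_insert_of_notMem,
      card_image_of_injective _ hχ]
    · simp
    · simp only [mem_image, mem_univ, true_and, not_exists]
      exact h2
    · simp only [mem_insert, mem_image, mem_univ, true_and, not_or, not_exists]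
      exact ⟨hne, h1⟩
    · simp only [mem_insert, mem_image, mem_univ, true_and, not_or, not_exists]
      exact ⟨h3.symm, h4.symm, h0⟩
  have := card_le_univ (insert i0 (insert j1 (insert j2 (univ.image χ))))
  rw [hc, Fintype.card_fin] at this
  omega

/-- graphs with `s + 1` independent classes and one class of small maximum degree are free -/
lemma free_of_col [Fintype V] [DecidableEq V] [DecidableRel G.Adj] {s d : ℕ}
    (col : V → Fin (s + 2)) (i0 : Fin (s + 2))
    (h1 : ∀ u v, G.Adj u v → col u = col v → col u = i0)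
    (h2 : ∀ u, col u = i0 → (univ.filter fun w => G.Adj u w ∧ col w = i0).card ≤ d) :
    (FG s (d + 1)).Free G := by
  classical
  rintro ⟨g⟩
  let φ : XV s (d + 1) → Fin (s + 2) := fun x => col (g x)
  have k1 : ∀ x y, xadj x y → φ x ≠ i0 → φ x ≠ φ y := fun x y h hx he =>
    hx (h1 _ _ (g.toHom.map_adj h) he)
  have k2 : ∀ x, φ x = i0 → ∀ y : Fin (d + 1) → XV s (d + 1), Function.Injective y →
      (∀ i, xadj x (y i)) → (∀ i, φ (y i) = i0) → False := by
    intro x hx y hy hxy hyi
    have h3 := h2 (g x) hx
    have h4 : (univ.image fun i => g (y i)) ⊆ univ.filter fun w => G.Adj (g x) w ∧ col w = i0 := by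
      intro w hw
      obtain ⟨i, -, rfl⟩ := mem_image.1 hw
      exact mem_filter.2 ⟨mem_univ _, g.toHom.map_adj (hxy i), hyi i⟩
    have h5 := card_le_card h4
    have h6 : Function.Injective fun i => g (y i) := fun i j h => hy (g.injective h)
    rw [card_image_of_injective _ h6] at h5
    simp at h5
    omega
  by_cases hc : ∀ l : Fin s, ∃ i : Fin (d + 1), φ (Sum.inr (l, i)) ≠ i0
  · choose τ hτ using hc
    have hI : ∀ x y : WV (d + 1), φ (Sum.inl x) ≠ i0 → φ (Sum.inl y) ≠ i0 → ¬ wadj x y := by
      intro x y hx hy hxy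
      refine k1 (Sum.inl x) (Sum.inl y) hxy hx ?_
      refine pigeon i0 _ _ (fun l => φ (Sum.inr (l, τ l))) ?_ hτ ?_ ?_ hx hy
      · intro l l' h
        by_contra hne
        exact k1 (Sum.inr (l, τ l)) (Sum.inr (l', τ l')) hne (hτ l) h
      · intro l
        exact k1 (Sum.inr (l, τ l)) (Sum.inl x) trivial (hτ l)
      · intro l
        exact k1 (Sum.inr (l, τ l)) (Sum.inl y) trivial (hτ l)
    by_cases hv : φ (Sum.inl none) = i0
    · have : ∀ i : Fin (d + 1), ∃ σ : Bool, φ (Sum.inl (some (σ, some i))) = i0 := by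
        intro i
        by_contra hne
        push Not at hne
        exact hI (some (false, some i)) (some (true, some i)) (hne _) (hne _) (by simp [wadj])
      choose σ hσ using this
      refine k2 _ hv (fun i => Sum.inl (some (σ i, some i))) ?_ ?_ hσ
      · intro i j h
        simp only [Sum.inl.injEq, Option.some.injEq, Prod.mk.injEq] at h
        exact h.2
      · intro i
        simp [xadj, wadj]
    · have h3 : ∀ (σ : Bool) (i : Fin (d + 1)), φ (Sum.inl (some (σ, some i))) = i0 := by
        intro σ i
        by_contra hne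
        exact hI none (some (σ, some i)) hv hne (by simp [wadj])
      have : ∃ σ : Bool, φ (Sum.inl (some (σ, none))) = i0 := by
        by_contra hne
        push Not at hne
        exact hI (some (false, none)) (some (true, none)) (hne _) (hne _) (by simp [wadj])
      obtain ⟨σ, hσ⟩ := this
      refine k2 _ hσ (fun i => Sum.inl (some (!σ, some i))) ?_ ?_ (h3 _)
      · intro i j h
        simpa using h
      · intro i
        simp [xadj, wadj]
  · push Not at hc
    obtain ⟨l, hl⟩ := hc
    have h3 : ∀ x : XV s (d + 1), (∀ i, xadj x (Sum.inr (l, i))) → φ x ≠ i0 := by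
      intro x hx hx0
      refine k2 x hx0 (fun i => Sum.inr (l, i)) ?_ hx hl
      intro i j h
      simpa using h
    let z : Fin s → XV s (d + 1) := fun l' => if l' = l then Sum.inl none else Sum.inr (l', 0)
    have hz0 : ∀ l', φ (z l') ≠ i0 := by
      intro l'
      apply h3
      intro i
      by_cases h : l' = l
      · simp [z, h, xadj]
      · simp [z, h, xadj]
    have hza : ∀ l' (σ : Bool), xadj (z l') (Sum.inl (some (σ, some 0))) := by
      intro l' σ
      by_cases h : l' = l
      · simp [z, h, xadj, wadj]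
      · simp [z, h, xadj]
    have ha : φ (Sum.inl (some (false, some 0))) ≠ i0 := h3 _ (fun _ => trivial)
    have hb : φ (Sum.inl (some (true, some 0))) ≠ i0 := h3 _ (fun _ => trivial)
    refine k1 (Sum.inl (some (false, some 0))) (Sum.inl (some (true, some 0)))
      (by simp [xadj, wadj]) ha ?_
    refine pigeon i0 _ _ (fun l' => φ (z l')) ?_ hz0 ?_ ?_ ha hb
    · intro l1 l2 h
      by_contra hne
      refine k1 (z l1) (z l2) ?_ (hz0 l1) h
      by_cases h1 : l1 = l <;> by_cases h2 : l2 = l
      · exact absurd (h1.trans h2.symm) hne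
      · simp [z, h1, h2, xadj]
      · simp [z, h1, h2, xadj]
      · simp [z, h1, h2, xadj, hne]
    · intro l'
      exact k1 _ _ (hza l' false) (hz0 l')
    · intro l'
      exact k1 _ _ (hza l' true) (hz0 l')

end Pool.Agent.H563Z.GT
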