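import Pool.Agent.H563Z.GT.A

set_option autoImplicit false
set_option linter.unusedSectionVars false

open Finset SimpleGraph

namespace Pool.Agent.H563Z.GT

variable {V : Type} {G : SimpleGraph V} [DecidableEq V] [DecidableRel G.Adj]

/-- common neighbourhoods -/
lemma common_nbhd (Z U : Finset V) (L : ℝ)
    (h : ∀ z ∈ Z, (((U.filter fun y => ¬ G.Adj z y).card : ℕ) : ℝ) ≤ L) :
    (U.card : ℝ) ≤ ((U.filter fun y => ∀ z ∈ Z, G.Adj z y).card : ℝ) + Z.card * L := by
  have h1 : U ⊆ (U.filter fun y => ∀ z ∈ Z, G.Adj z y) ∪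
      Z.biUnion fun z => U.filter fun y => ¬ G.Adj z y := by
    intro y hy
    by_cases hz : ∀ z ∈ Z, G.Adj z y
    · exact mem_union_left _ (mem_filter.2 ⟨hy, hz⟩)
    · push Not at hz
      obtain ⟨z, hz, hzy⟩ := hz
      exact mem_union_right _ (mem_biUnion.2 ⟨z, hz, mem_filter.2 ⟨hy, hzy⟩⟩)
  have h2 := (card_le_card h1).trans (card_union_le _ _)
  have h3 : (Z.biUnion fun z => U.filter fun y => ¬ G.Adj z y).card ≤
      ∑ z ∈ Z, (U.filter fun y => ¬ G.Adj z y).card := card_biUnion_le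
  have h4 : ((∑ z ∈ Z, (U.filter fun y => ¬ G.Adj z y).card : ℕ) : ℝ) ≤ Z.card * L := by
    push_cast
    calc ∑ z ∈ Z, (((U.filter fun y => ¬ G.Adj z y).card : ℕ) : ℝ) ≤ ∑ _z ∈ Z, L :=
          sum_le_sum h
      _ = Z.card * L := by simp
  have h5 : (U.card : ℝ) ≤ ((U.filter fun y => ∀ z ∈ Z, G.Adj z y).card : ℝ) +
      ((∑ z ∈ Z, (U.filter fun y => ¬ G.Adj z y).card : ℕ) : ℝ) := by
    exact_mod_cast h2.trans (Nat.add_le_add_left h3 _)
  linarith

lemma common_nbhd' (Z U : Finset V) (L : ℝ)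
    (h : ∀ z ∈ Z, (((U.filter fun y => ¬ G.Adj z y).card : ℕ) : ℝ) ≤ L) :
    ∃ U' : Finset V, U' ⊆ U ∧ (∀ y ∈ U', ∀ z ∈ Z, G.Adj z y) ∧
      (U.card : ℝ) ≤ (U'.card : ℝ) + Z.card * L :=
  ⟨_, filter_subset _ _, fun _ hy => (mem_filter.1 hy).2, common_nbhd Z U L h⟩

/-- greedy choice of completely joined sets -/
lemma greedy {ι : Type} [DecidableEq ι] (t : ℕ) (L : ℝ) (hL : 0 ≤ L) (S : Finset ι) :
    ∀ U : ι → Finset V,
      (∀ i j, i ≠ j → ∀ x ∈ U i, (((U j).filter fun y => ¬ G.Adj x y).card : ℝ) ≤ L) →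
      (∀ i ∈ S, (t : ℝ) + S.card * (t * L) ≤ (U i).card) →
      ∃ T : ι → Finset V, (∀ i ∈ S, T i ⊆ U i ∧ (T i).card = t) ∧
        ∀ i ∈ S, ∀ j ∈ S, i ≠ j → ∀ x ∈ T i, ∀ y ∈ T j, G.Adj x y := by
  induction S using Finset.induction_on with
  | empty => intro U _ _; exact ⟨U, by simp, by simp⟩
  | insert a S ha ih =>
    intro U h1 h2
    have htL : (0 : ℝ) ≤ t * L := by positivity
    have hc : ((insert a S).card : ℝ) = S.card + 1 := by
      rw [card_insert_of_notMem ha]; push_cast; ring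
    have hta : t ≤ (U a).card := by
      have h3 := h2 a (mem_insert_self _ _)
      have : (0 : ℝ) ≤ ((insert a S).card : ℝ) * (t * L) := by positivity
      have : (t : ℝ) ≤ (U a).card := by linarith
      exact_mod_cast this
    obtain ⟨Ta, hTa, hTc⟩ := Finset.exists_subset_card_eq hta
    let U' : ι → Finset V := fun i => (U i).filter fun y => ∀ z ∈ Ta, G.Adj z y
    obtain ⟨T, hT1, hT2⟩ := ih U' (by
      intro i j hij x hx
      refine le_trans ?_ (h1 i j hij x (mem_filter.1 hx).1)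
      exact_mod_cast card_le_card (filter_subset_filter _ (filter_subset _ _))) (by
      intro i hi
      have hia : a ≠ i := fun h => ha (h ▸ hi)
      have h3 := common_nbhd (G := G) Ta (U i) L (fun z hz => h1 a i hia z (hTa hz))
      have h4 := h2 i (mem_insert_of_mem hi)
      rw [hc] at h4
      rw [hTc] at h3
      simp only [U']
      linarith)
    refine ⟨Function.update T a Ta, ?_, ?_⟩
    · intro i hi
      rcases mem_insert.1 hi with rfl | hi
      · simp [hTa, hTc]
      · have hia : i ≠ a := fun h => ha (h ▸ hi)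
        rw [Function.update_of_ne hia]
        exact ⟨(hT1 i hi).1.trans (filter_subset _ _), (hT1 i hi).2⟩
    · intro i hi j hj hij x hx y hy
      by_cases hia : i = a <;> by_cases hja : j = a
      · exact absurd (hia.trans hja.symm) hij
      · have hj' : j ∈ S := (mem_insert.1 hj).resolve_left hja
        rw [Function.update_of_ne hja] at hy
        rw [hia, Function.update_self] at hx
        exact (mem_filter.1 ((hT1 j hj').1 hy)).2 x hx
      · have hi' : i ∈ S := (mem_insert.1 hi).resolve_left hia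
        rw [Function.update_of_ne hia] at hx
        rw [hja, Function.update_self] at hy
        exact ((mem_filter.1 ((hT1 i hi').1 hx)).2 y hy).symm
      · have hj' : j ∈ S := (mem_insert.1 hj).resolve_left hja
        have hi' : i ∈ S := (mem_insert.1 hi).resolve_left hia
        rw [Function.update_of_ne hia] at hx
        rw [Function.update_of_ne hja] at hy
        exact hT2 i hi' j hj' hij x hx y hy

omit [DecidableEq V] [DecidableRel G.Adj] in
lemma exists_inj_option {D : ℕ} (T : Finset V) (h : D + 1 ≤ T.card) :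
    ∃ b : Option (Fin D) → V, Function.Injective b ∧ ∀ p, b p ∈ T := by
  classical
  have : Fintype.card (Option (Fin D)) ≤ Fintype.card T := by simpa using h
  obtain ⟨e⟩ := Function.Embedding.nonempty_of_card_le this
  exact ⟨fun p => (e p : V), fun p q hpq => e.injective (Subtype.ext hpq), fun p => (e p).2⟩

omit [DecidableRel G.Adj] in
/-- an apex with `D` neighbours on one side and `s + 1` completely joined sets -/
lemma embed_apex {s D : ℕ} (v a' : V) (A : Finset V) (hA : D ≤ A.card) (ha' : a' ∉ A)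
    (hva' : v ≠ a') (hvA : ∀ x ∈ A, G.Adj v x) (T : Fin (s + 1) → Finset V)
    (hT : ∀ l, D + 1 ≤ (T l).card) (hTT : ∀ l l', l ≠ l' → ∀ x ∈ T l, ∀ y ∈ T l', G.Adj x y)
    (h1 : ∀ l, ∀ y ∈ T l, G.Adj v y) (h2 : ∀ l, ∀ y ∈ T l, G.Adj a' y)
    (h3 : ∀ l, ∀ y ∈ T l, ∀ x ∈ A, G.Adj x y) : FG s D ⊑ G := by
  obtain ⟨b, hbi, hbT⟩ := exists_inj_option (T 0) (hT 0)
  have : Fintype.card (Fin D) ≤ Fintype.card A := by simpa using hA
  obtain ⟨e⟩ := Function.Embedding.nonempty_of_card_le this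
  let a : Option (Fin D) → V := fun p => match p with
    | none => a'
    | some i => (e i : V)
  have hai : Function.Injective a := by
    rintro (_ | i) (_ | j) h
    · rfl
    · exact absurd ((show a' = (e j : V) from h) ▸ (e j).2) ha'
    · exact absurd ((show (e i : V) = a' from h) ▸ (e i).2) ha'
    · rw [e.injective (Subtype.ext h)]
  have haT : ∀ p l, ∀ y ∈ T l, G.Adj (a p) y := by
    rintro (_ | i) l y hy
    · exact h2 l y hy
    · exact h3 l y hy _ (e i).2
  obtain ⟨w, hw1, hw2, hw3⟩ := core_apex (G := G) v a b hai hbi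
    (fun p q => haT p 0 _ (hbT q)) (fun i => hvA _ (e i).2) (fun i => h1 0 _ (hbT _)) hva'
    (h1 0 _ (hbT _)).ne
  refine embed_join w hw1 hw2 (fun l => T l.succ) (fun l => (Nat.le_succ D).trans (hT _))
    (fun l l' h => hTT _ _ (fun h' => h (Fin.succ_injective _ h'))) ?_
  intro l x y hy
  rcases hw3 x with h | ⟨p, h⟩ | ⟨p, h⟩
  · rw [h]; exact h1 _ y hy
  · rw [h]; exact haT p _ y hy
  · rw [h]; exact hTT 0 l.succ (Fin.succ_ne_zero l).symm _ (hbT p) y hy

omit [DecidableRel G.Adj] in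
/-- an apex joined to `s + 2` completely joined sets -/
lemma embed_apex0 {s D : ℕ} (v : V) (T : Fin (s + 2) → Finset V)
    (hT : ∀ l, D + 1 ≤ (T l).card) (hTT : ∀ l l', l ≠ l' → ∀ x ∈ T l, ∀ y ∈ T l', G.Adj x y)
    (h1 : ∀ l, ∀ y ∈ T l, G.Adj v y) : FG s D ⊑ G := by
  have hne : (T 0).Nonempty := card_pos.1 (lt_of_lt_of_le (Nat.succ_pos D) (hT 0))
  obtain ⟨a', ha'⟩ := hne
  refine embed_apex v a' ((T 0).erase a') ?_ (notMem_erase _ _) (h1 0 a' ha').ne
    (fun x hx => h1 0 x (mem_of_mem_erase hx)) (fun l => T l.succ) (fun l => hT _)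
    (fun l l' h => hTT _ _ (fun h' => h (Fin.succ_injective _ h'))) (fun l => h1 _) ?_ ?_
  · rw [card_erase_of_mem ha']
    have := hT 0
    omega
  · intro l y hy
    exact hTT 0 l.succ (Fin.succ_ne_zero l).symm _ ha' y hy
  · intro l y hy x hx
    exact hTT 0 l.succ (Fin.succ_ne_zero l).symm _ (mem_of_mem_erase hx) y hy

/-- ordered adjacent pairs inside a set -/
def prs (G : SimpleGraph V) [DecidableRel G.Adj] (Y : Finset V) : Finset (V × V) :=
  (Y ×ˢ Y).filter fun p => G.Adj p.1 p.2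

omit [DecidableEq V] in
lemma card_prs (Y : Finset V) :
    (prs G Y).card = ∑ x ∈ Y, (Y.filter fun y => G.Adj x y).card := by
  unfold prs
  rw [card_filter, sum_product]
  refine sum_congr rfl fun x _ => ?_
  rw [card_filter]

lemma prs_sdiff (Y Z : Finset V) (d : ℕ)
    (hd : ∀ x ∈ Y, (Y.filter fun y => G.Adj x y).card ≤ d) :
    (prs G Y).card ≤ (prs G (Y \ Z)).card + 2 * d * Z.card := by
  have h1 : prs G Y ⊆ prs G (Y \ Z) ∪
      (((Z ∩ Y).biUnion fun z => (Y.filter fun y => G.Adj z y).image fun y => (z, y)) ∪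
       ((Z ∩ Y).biUnion fun z => (Y.filter fun y => G.Adj z y).image fun y => (y, z))) := by
    rintro ⟨x, y⟩ hp
    simp only [prs, mem_filter, mem_product] at hp
    by_cases hx : x ∈ Z
    · refine mem_union_right _ (mem_union_left _ (mem_biUnion.2 ⟨x, mem_inter.2 ⟨hx, hp.1.1⟩, ?_⟩))
      exact mem_image.2 ⟨y, mem_filter.2 ⟨hp.1.2, hp.2⟩, rfl⟩
    · by_cases hy : y ∈ Z
      · refine mem_union_right _ (mem_union_right _
          (mem_biUnion.2 ⟨y, mem_inter.2 ⟨hy, hp.1.2⟩, ?_⟩))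
        exact mem_image.2 ⟨x, mem_filter.2 ⟨hp.1.1, hp.2.symm⟩, rfl⟩
      · refine mem_union_left _ ?_
        simp only [prs, mem_filter, mem_product, mem_sdiff]
        exact ⟨⟨⟨hp.1.1, hx⟩, hp.1.2, hy⟩, hp.2⟩
  have h2 : ∀ f : V → V → V × V,
      ((Z ∩ Y).biUnion fun z => (Y.filter fun y => G.Adj z y).image (f z)).card ≤ d * Z.card := by
    intro f
    calc _ ≤ ∑ z ∈ Z ∩ Y, ((Y.filter fun y => G.Adj z y).image (f z)).card := card_biUnion_le
      _ ≤ ∑ _z ∈ Z ∩ Y, d := sum_le_sum fun z hz =>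
          card_image_le.trans (hd z (mem_inter.1 hz).2)
      _ = (Z ∩ Y).card * d := by simp
      _ ≤ Z.card * d := Nat.mul_le_mul_right _ (card_le_card inter_subset_left)
      _ = d * Z.card := Nat.mul_comm _ _
  have h3 := (card_le_card h1).trans (card_union_le _ _)
  have h4 := card_union_le
    ((Z ∩ Y).biUnion fun z => (Y.filter fun y => G.Adj z y).image fun y => (z, y))
    ((Z ∩ Y).biUnion fun z => (Y.filter fun y => G.Adj z y).image fun y => (y, z))
  have h5 := h2 fun z y => (z, y)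
  have h6 := h2 fun z y => (y, z)
  nlinarith

/-- greedy matchings -/
lemma matching (d : ℕ) (D : ℕ) : ∀ Y : Finset V,
    (∀ x ∈ Y, (Y.filter fun y => G.Adj x y).card ≤ d) → 4 * d * D < (prs G Y).card →
    ∃ m : Bool × Fin D → V, Function.Injective m ∧ (∀ i, G.Adj (m (false, i)) (m (true, i))) ∧
      ∀ p, m p ∈ Y := by
  induction D with
  | zero =>
    intro Y _ _
    exact ⟨fun p => p.2.elim0, fun p => p.2.elim0, fun i => i.elim0, fun p => p.2.elim0⟩
  | succ D ih =>
    intro Y hd hY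
    have hne : (prs G Y).Nonempty := card_pos.1 (by omega)
    obtain ⟨⟨x, y⟩, hp⟩ := hne
    simp only [prs, mem_filter, mem_product] at hp
    have h1 := prs_sdiff Y {x, y} d hd
    have h2 : ({x, y} : Finset V).card ≤ 2 := card_le_two
    obtain ⟨m, hm1, hm2, hm3⟩ := ih (Y \ {x, y}) (fun z hz => by
      refine le_trans (card_le_card ?_) (hd z (mem_sdiff.1 hz).1)
      exact filter_subset_filter _ sdiff_subset) (by nlinarith)
    have hmx : ∀ p, m p ≠ x := fun p h => (mem_sdiff.1 (hm3 p)).2 (by simp [h])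
    have hmy : ∀ p, m p ≠ y := fun p h => (mem_sdiff.1 (hm3 p)).2 (by simp [h])
    let m' : Bool × Fin (D + 1) → V := fun p =>
      Fin.cases (if p.1 then y else x) (fun i => m (p.1, i)) p.2
    have hxy : x ≠ y := hp.2.ne
    refine ⟨m', ?_, ?_, ?_⟩
    · rintro ⟨σ, i⟩ ⟨τ, j⟩ h
      refine Fin.cases ?_ (fun i => ?_) i h <;> refine Fin.cases ?_ (fun j => ?_) j
      · cases σ <;> cases τ <;> simp [m', hxy, hxy.symm]
      · cases σ <;> simp [m', (hmx _).symm, (hmy _).symm]
      · cases τ <;> simp [m', hmx, hmy]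
      · intro h
        have : m (σ, i) = m (τ, j) := h
        have := hm1 this
        simp_all
    · intro i
      refine Fin.cases ?_ (fun i => ?_) i
      · simpa [m'] using hp.2
      · simpa [m'] using hm2 i
    · rintro ⟨σ, i⟩
      refine Fin.cases ?_ (fun i => ?_) i
      · cases σ
        · simpa [m'] using hp.1.1
        · simpa [m'] using hp.1.2
      · simpa [m'] using (mem_sdiff.1 (hm3 (σ, i))).1

end Pool.Agent.H563Z.GT
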