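import Pool.Agent.H563Z.GT.B

set_option autoImplicit false
set_option linter.unusedSectionVars false
set_option maxHeartbeats 400000

open Finset SimpleGraph

namespace Pool.Agent.H563Z.GT

variable {V : Type} {G : SimpleGraph V} [DecidableEq V] [DecidableRel G.Adj] [Fintype V]

lemma sum_non (W : Finset V) (M : ℝ)
    (hnn : ∀ x, ((univ.filter fun y => ¬ G.Adj x y).card : ℝ) ≤ M) :
    ∑ x : V, ((W.filter fun y => ¬ G.Adj x y).card : ℝ) ≤ W.card * M := by
  have h1 : ∑ x : V, (W.filter fun y => ¬ G.Adj x y).card =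
      ∑ w ∈ W, (univ.filter fun y => ¬ G.Adj w y).card := by
    simp only [card_filter]
    rw [sum_comm]
    refine sum_congr rfl fun w _ => sum_congr rfl fun x _ => ?_
    simp only [G.adj_comm]
  calc ∑ x : V, ((W.filter fun y => ¬ G.Adj x y).card : ℝ)
      = ∑ w ∈ W, ((univ.filter fun y => ¬ G.Adj w y).card : ℝ) := by exact_mod_cast h1
    _ ≤ ∑ _w ∈ W, M := sum_le_sum fun w _ => hnn w
    _ = W.card * M := by simp

lemma step1 {s D lam : ℕ} (ε : ℝ) (hε : 0 < ε) (hε1 : ε ≤ 1) (hl1 : D + 1 ≤ lam)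
    (hl2 : ((D : ℝ) + 1) ≤ ε * lam) (hfree : (FG s D).Free G)
    (hnn : ∀ x, ((univ.filter fun y => ¬ G.Adj x y).card : ℝ) ≤
      (1 / ((s : ℝ) + 2) + ε) * Fintype.card V)
    (W : Fin (s + 2) → Finset V) (hW : ∀ i, (W i).card = D + 1 + (D + 2) * lam)
    (hWW : ∀ i j, i ≠ j → ∀ x ∈ W i, ∀ y ∈ W j, G.Adj x y) :
    ∃ U : Fin (s + 2) → Finset V, (∀ i j, i ≠ j → Disjoint (U i) (U j)) ∧
      (∀ i, (1 / ((s : ℝ) + 2) - (((s : ℝ) + 2) * (D + 6) + 1) * ε) * Fintype.card V ≤
        (U i).card) ∧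
      ∀ i, ∀ x ∈ U i, ((U i).filter fun y => G.Adj x y).card ≤ D := by
  obtain ⟨N, hN⟩ : ∃ N : ℝ, N = (Fintype.card V : ℝ) := ⟨_, rfl⟩
  obtain ⟨k, hk⟩ : ∃ k : ℝ, k = (s : ℝ) + 2 := ⟨_, rfl⟩
  rw [← hN, ← hk] at hnn ⊢
  have hN0 : 0 ≤ N := by rw [hN]; positivity
  have hk2 : 2 ≤ k := by rw [hk]; have : (0 : ℝ) ≤ s := by positivity
                         linarith
  have hk0 : 0 < k := by linarith
  obtain ⟨T, hT⟩ : ∃ T : ℕ, T = D + 1 + (D + 2) * lam := ⟨_, rfl⟩
  rw [← hT] at hW
  have hTr : (T : ℝ) = D + 1 + (D + 2) * lam := by rw [hT]; push_cast; ring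
  have hD0 : (0 : ℝ) ≤ D := by positivity
  have hl1r : (D : ℝ) + 1 ≤ lam := by exact_mod_cast hl1
  have hlam0 : (0 : ℝ) < lam := by linarith
  obtain ⟨non, hnon⟩ : ∃ non : V → Fin (s + 2) → ℕ,
      ∀ x i, non x i = ((W i).filter fun y => ¬ G.Adj x y).card := ⟨_, fun _ _ => rfl⟩
  have hc0 : ∀ x, ∃ i, T ≤ non x i + D := by
    intro x
    by_contra hcon
    push Not at hcon
    refine hfree (embed_apex0 x (fun i => (W i).filter fun y => G.Adj x y) ?_ ?_ ?_)
    · intro i
      have h1 := card_filter_add_card_filter_not (s := W i) (fun y => G.Adj x y)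
      have h2 := hcon i
      rw [hW i] at h1
      rw [hnon] at h2
      omega
    · intro i j hij a ha b hb
      exact hWW i j hij a (mem_filter.1 ha).1 b (mem_filter.1 hb).1
    · intro i y hy
      exact (mem_filter.1 hy).2
  choose c0 hc0 using hc0
  have hsum : ∀ i, ∑ x : V, (non x i : ℝ) ≤ T * ((1 / k + ε) * N) := by
    intro i
    have := sum_non (G := G) (W i) _ hnn
    rw [hW i] at this
    simp only [hnon]
    exact this
  obtain ⟨off, hoffd⟩ : ∃ off : V → ℕ, ∀ x, off x = ∑ j ∈ univ.erase (c0 x), non x j :=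
    ⟨_, fun _ => rfl⟩
  have hoff : ∑ x : V, (off x : ℝ) ≤ (k * ε * T + D) * N := by
    have h1 : ∀ x, (off x : ℝ) + non x (c0 x) = ∑ j, (non x j : ℝ) := by
      intro x
      have := Finset.sum_erase_add (univ : Finset (Fin (s + 2))) (fun j => non x j)
        (mem_univ (c0 x))
      rw [hoffd]
      exact_mod_cast this
    have h2 : ∑ x : V, ∑ j, (non x j : ℝ) ≤ k * (T * ((1 / k + ε) * N)) := by
      rw [sum_comm]
      calc ∑ j, ∑ x : V, (non x j : ℝ) ≤ ∑ _j : Fin (s + 2), T * ((1 / k + ε) * N) :=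
            sum_le_sum fun j _ => hsum j
        _ = k * (T * ((1 / k + ε) * N)) := by simp [hk]
    have h3 : ∑ x : V, ((off x : ℝ) + (T - D)) ≤ ∑ x : V, ∑ j, (non x j : ℝ) := by
      refine sum_le_sum fun x _ => ?_
      rw [← h1 x]
      have : (T : ℝ) ≤ non x (c0 x) + D := by exact_mod_cast hc0 x
      linarith
    rw [sum_add_distrib] at h3
    simp only [sum_const, card_univ, nsmul_eq_mul] at h3
    have h4 : k * (T * ((1 / k + ε) * N)) = T * N + k * ε * T * N := by field_simp
    rw [← hN] at h3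
    nlinarith
  obtain ⟨bad, hbadd⟩ : ∃ bad : Finset V, ∀ x, x ∈ bad ↔ lam < off x :=
    ⟨univ.filter fun x => lam < off x, fun x => by simp⟩
  have hbad : (bad.card : ℝ) ≤ (k * (D + 3) + 1) * ε * N := by
    have h1 : (bad.card : ℝ) * lam ≤ ∑ x : V, (off x : ℝ) := by
      calc (bad.card : ℝ) * lam = ∑ _x ∈ bad, (lam : ℝ) := by rw [sum_const, nsmul_eq_mul]
        _ ≤ ∑ x ∈ bad, (off x : ℝ) := sum_le_sum fun x hx => by
            exact_mod_cast ((hbadd x).1 hx).le
        _ ≤ ∑ x : V, (off x : ℝ) :=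
            sum_le_sum_of_subset_of_nonneg (subset_univ _) fun _ _ _ => by positivity
    have h2 : k * ε * T + D ≤ (k * (D + 3) + 1) * ε * lam := by
      have : (T : ℝ) ≤ (D + 3) * lam := by rw [hTr]; nlinarith
      have h3 : k * ε * T ≤ k * ε * ((D + 3) * lam) := by gcongr
      nlinarith
    have h3 : (bad.card : ℝ) * lam ≤ ((k * (D + 3) + 1) * ε * N) * lam := by
      calc (bad.card : ℝ) * lam ≤ (k * ε * T + D) * N := h1.trans hoff
        _ ≤ ((k * (D + 3) + 1) * ε * lam) * N := by gcongr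
        _ = _ := by ring
    exact le_of_mul_le_mul_right h3 hlam0
  obtain ⟨Vc, hVc⟩ : ∃ Vc : Fin (s + 2) → Finset V, ∀ i, Vc i = univ.filter fun x => c0 x = i :=
    ⟨_, fun _ => rfl⟩
  have hVm : ∀ i x, x ∈ Vc i → c0 x = i := fun i x hx => by
    rw [hVc] at hx
    exact (mem_filter.1 hx).2
  have hVup : ∀ i, ((Vc i).card : ℝ) ≤ (1 / k + 3 * ε) * N := by
    intro i
    have h1 : ((Vc i).card : ℝ) * (T - D) ≤ T * ((1 / k + ε) * N) := by
      calc ((Vc i).card : ℝ) * (T - D) = ∑ _x ∈ Vc i, ((T : ℝ) - D) := by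
            rw [sum_const, nsmul_eq_mul]
        _ ≤ ∑ x ∈ Vc i, (non x i : ℝ) := sum_le_sum fun x hx => by
            have h2 : (T : ℝ) ≤ non x (c0 x) + D := by exact_mod_cast hc0 x
            rw [hVm i x hx] at h2
            linarith
        _ ≤ ∑ x : V, (non x i : ℝ) :=
            sum_le_sum_of_subset_of_nonneg (subset_univ _) fun _ _ _ => by positivity
        _ ≤ _ := hsum i
    have hTD : (0 : ℝ) < T - D := by rw [hTr]; nlinarith
    have hk1 : 1 / k ≤ 1 := by rw [div_le_one hk0]; linarith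
    have hk1' : 0 < 1 / k := by positivity
    have h2 : T * (1 / k + ε) ≤ (1 / k + 3 * ε) * (T - D) := by
      have h3 : (D : ℝ) * (1 / k + 3 * ε) ≤ D * 4 := by gcongr; linarith
      have h4 : 2 * (lam : ℝ) ≤ T := by rw [hTr]; nlinarith
      have h5 : ε * (2 * lam) ≤ ε * T := by gcongr
      nlinarith
    have h3 : ((Vc i).card : ℝ) * (T - D) ≤ ((1 / k + 3 * ε) * N) * (T - D) := by
      calc ((Vc i).card : ℝ) * (T - D) ≤ (T * (1 / k + ε)) * N := by linarith
        _ ≤ ((1 / k + 3 * ε) * (T - D)) * N := by gcongr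
        _ = _ := by ring
    exact le_of_mul_le_mul_right h3 hTD
  have hVsum : ∑ i, ((Vc i).card : ℝ) = N := by
    have := card_eq_sum_card_fiberwise (s := (univ : Finset V)) (t := univ) (f := c0)
      (fun _ _ => mem_univ _)
    rw [hN, ← card_univ, this]
    push_cast
    simp only [hVc]
  have hVlow : ∀ i, (1 / k - 3 * k * ε) * N ≤ (Vc i).card := by
    intro i
    have h1 := Finset.sum_erase_add (univ : Finset (Fin (s + 2))) (fun j => ((Vc j).card : ℝ))
      (mem_univ i)
    have h2 : ∑ j ∈ univ.erase i, ((Vc j).card : ℝ) ≤ (k - 1) * ((1 / k + 3 * ε) * N) := by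
      calc ∑ j ∈ univ.erase i, ((Vc j).card : ℝ) ≤ ∑ _j ∈ univ.erase i, (1 / k + 3 * ε) * N :=
            sum_le_sum fun j _ => hVup j
        _ = (k - 1) * ((1 / k + 3 * ε) * N) := by
            simp only [sum_const, card_erase_of_mem (mem_univ i), card_univ, Fintype.card_fin,
              nsmul_eq_mul, hk]
            push_cast
            ring
    have h3 : (k - 1) * ((1 / k + 3 * ε) * N) = N - 1 / k * N + 3 * k * ε * N - 3 * ε * N := by
      field_simp
      ring
    have h4 : 0 ≤ ε * N := by positivity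
    nlinarith
  refine ⟨fun i => Vc i \ bad, ?_, ?_, ?_⟩
  · intro i j hij
    rw [Finset.disjoint_left]
    intro x hx hx'
    exact hij ((hVm _ _ (mem_sdiff.1 hx).1).symm.trans (hVm _ _ (mem_sdiff.1 hx').1))
  · intro i
    have h1 : ((Vc i).card : ℝ) ≤ (Vc i \ bad).card + bad.card := by
      exact_mod_cast card_le_card_sdiff_add_card
    have h2 := hVlow i
    nlinarith
  · intro i x hx
    by_contra hcon
    push Not at hcon
    obtain ⟨Y, hY, hYc⟩ := Finset.exists_subset_card_eq (Nat.succ_le_of_lt hcon)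
    have hgood : ∀ z ∈ insert x Y, ∀ j, j ≠ i →
        (((W j).filter fun y => ¬ G.Adj z y).card : ℝ) ≤ lam := by
      intro z hz j hj
      have hz' : z ∈ Vc i \ bad := by
        rcases mem_insert.1 hz with rfl | hz
        · exact hx
        · exact (mem_filter.1 (hY hz)).1
      have h1 : c0 z = i := hVm _ _ (mem_sdiff.1 hz').1
      have h2 : off z ≤ lam := by
        have := (mem_sdiff.1 hz').2
        rw [hbadd] at this
        omega
      have h3 : non z j ≤ off z := by
        rw [hoffd]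
        exact single_le_sum (f := fun j => non z j) (fun _ _ => Nat.zero_le _)
          (mem_erase.2 ⟨h1 ▸ hj, mem_univ _⟩)
      rw [← hnon]
      exact_mod_cast h3.trans h2
    have hex : ∀ j, ∃ T' : Finset V, D + 1 ≤ T'.card ∧ (j = i → T' = Y) ∧
        (j ≠ i → T' ⊆ W j ∧ ∀ y ∈ T', ∀ z ∈ insert x Y, G.Adj z y) := by
      intro j
      by_cases hj : j = i
      · exact ⟨Y, hYc.ge, fun _ => rfl, fun h => absurd hj h⟩
      · obtain ⟨U', hU1, hU2, h1⟩ :=
          common_nbhd' (G := G) (insert x Y) (W j) lam (fun z hz => hgood z hz j hj)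
        refine ⟨U', ?_, fun h => absurd h hj, fun _ => ⟨hU1, hU2⟩⟩
        have h2 : ((insert x Y).card : ℝ) ≤ D + 2 := by
          have := card_insert_le x Y
          rw [hYc] at this
          exact_mod_cast this
        rw [hW j, hTr] at h1
        have h3 : ((insert x Y).card : ℝ) * lam ≤ (D + 2) * lam := by gcongr
        have h4 : (D : ℝ) + 1 ≤ (U'.card : ℝ) := by linarith
        exact_mod_cast h4
    choose T' hT1 hT2 hT3 using hex
    refine hfree (embed_apex0 x T' hT1 ?_ ?_)
    · intro j j' hjj a ha b hb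
      by_cases hj : j = i <;> by_cases hj' : j' = i
      · exact absurd (hj.trans hj'.symm) hjj
      · rw [hT2 j hj] at ha
        exact (hT3 j' hj').2 b hb a (mem_insert_of_mem ha)
      · rw [hT2 j' hj'] at hb
        exact ((hT3 j hj).2 a ha b (mem_insert_of_mem hb)).symm
      · exact hWW j j' hjj a ((hT3 j hj).1 ha) b ((hT3 j' hj').1 hb)
    · intro j y hy
      by_cases hj : j = i
      · rw [hT2 j hj] at hy
        exact (mem_filter.1 (hY hy)).2
      · exact (hT3 j hj).2 y hy x (mem_insert_self _ _)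

/-- few non-neighbours outside a large set in which one has few neighbours -/
lemma outside_bound (x : V) (U : Finset V) :
    ((univ.filter fun y => y ∉ U ∧ ¬ G.Adj x y).card : ℝ) + U.card =
      (univ.filter fun y => ¬ G.Adj x y).card + (U.filter fun y => G.Adj x y).card := by
  have h1 := card_filter_add_card_filter_not (s := U) (fun y => G.Adj x y)
  have h2 := card_filter_add_card_filter_not (s := univ.filter fun y => ¬ G.Adj x y)
    (fun y => y ∈ U)
  have h3 : ((univ.filter fun y => ¬ G.Adj x y).filter fun y => y ∈ U) =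
      U.filter fun y => ¬ G.Adj x y := by
    ext y; simp [and_comm]
  have h4 : ((univ.filter fun y => ¬ G.Adj x y).filter fun y => ¬ y ∈ U) =
      univ.filter fun y => y ∉ U ∧ ¬ G.Adj x y := by
    ext y; simp [and_comm]
  rw [h3, h4] at h2
  have : (univ.filter fun y => y ∉ U ∧ ¬ G.Adj x y).card + U.card =
      (univ.filter fun y => ¬ G.Adj x y).card + (U.filter fun y => G.Adj x y).card := by omega
  exact_mod_cast this

lemma step2 {s D : ℕ} (a η : ℝ) (hη : 0 ≤ η) (hfree : (FG s D).Free G)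
    (hnn : ∀ x, ((univ.filter fun y => ¬ G.Adj x y).card : ℝ) ≤ a + η)
    (U : Fin (s + 2) → Finset V) (hU1 : ∀ i j, i ≠ j → Disjoint (U i) (U j))
    (hU2 : ∀ i, a - η ≤ (U i).card) (hD : (D : ℝ) + 1 ≤ η)
    (hU3 : ∀ i, ∀ x ∈ U i, ((U i).filter fun y => G.Adj x y).card ≤ D) :
    ∃ col : V → Fin (s + 2),
      (∀ x, ((univ.filter fun y => col y ≠ col x ∧ ¬ G.Adj x y).card : ℝ) ≤
        3 * (1 + (s + 2) * (D + 1)) * η) ∧
      ∀ i, a - η ≤ (univ.filter fun x => col x = i).card := by
  have hgood : ∀ i, ∀ x ∈ U i,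
      ((univ.filter fun y => y ∉ U i ∧ ¬ G.Adj x y).card : ℝ) ≤ 3 * η := by
    intro i x hx
    have h1 := outside_bound (G := G) x (U i)
    have h2 : (((U i).filter fun y => G.Adj x y).card : ℝ) ≤ D := by exact_mod_cast hU3 i x hx
    have h3 := hnn x
    have h4 := hU2 i
    linarith
  have hany : ∀ x, ∃ j, (((U j).filter fun y => G.Adj x y).card : ℝ) <
      ((D + 1 : ℕ) : ℝ) + ((univ : Finset (Fin (s + 2))).card : ℝ) * (((D + 1 : ℕ) : ℝ) * (3 * η)) := by
    intro x
    by_contra hcon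
    push Not at hcon
    obtain ⟨T, hT1, hT2⟩ := greedy (G := G) (D + 1) (3 * η) (by positivity) univ
      (fun j => (U j).filter fun y => G.Adj x y) (by
        intro i j hij z hz
        refine le_trans ?_ (hgood i z (mem_filter.1 hz).1)
        have : (((U j).filter fun y => G.Adj x y).filter fun y => ¬ G.Adj z y) ⊆
            univ.filter fun y => y ∉ U i ∧ ¬ G.Adj z y := by
          intro y hy
          have h1 := mem_filter.1 hy
          refine mem_filter.2 ⟨mem_univ _, ?_, h1.2⟩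
          exact fun h => Finset.disjoint_left.1 (hU1 i j hij) h (mem_filter.1 h1.1).1
        exact_mod_cast card_le_card this) (fun i _ => hcon i)
    refine hfree (embed_apex0 x T (fun l => (hT1 l (mem_univ _)).2.ge)
      (fun l l' h => hT2 l (mem_univ _) l' (mem_univ _) h) ?_)
    intro l y hy
    exact (mem_filter.1 ((hT1 l (mem_univ _)).1 hy)).2
  have hcol : ∀ x, ∃ j, (∀ i, x ∈ U i → j = i) ∧
      ((univ.filter fun y => y ∉ U j ∧ ¬ G.Adj x y).card : ℝ) ≤
        3 * (1 + (s + 2) * (D + 1)) * η := by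
    intro x
    have hpos : (0 : ℝ) ≤ (s + 2) * (D + 1) * η := by positivity
    by_cases hx : ∃ i, x ∈ U i
    · obtain ⟨i, hi⟩ := hx
      refine ⟨i, fun i' hi' => ?_, ?_⟩
      · by_contra hne
        exact Finset.disjoint_left.1 (hU1 i i' hne) hi hi'
      · have := hgood i x hi
        nlinarith
    · obtain ⟨j, hj⟩ := hany x
      refine ⟨j, fun i hi => absurd ⟨i, hi⟩ hx, ?_⟩
      have h1 := outside_bound (G := G) x (U j)
      have h3 := hnn x
      have h4 := hU2 j
      simp only [card_univ, Fintype.card_fin] at hj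
      push_cast at hj
      nlinarith
  choose col hcol1 hcol2 using hcol
  refine ⟨col, fun x => ?_, fun i => ?_⟩
  · refine le_trans ?_ (hcol2 x)
    have : (univ.filter fun y => col y ≠ col x ∧ ¬ G.Adj x y) ⊆
        univ.filter fun y => y ∉ U (col x) ∧ ¬ G.Adj x y := by
      intro y hy
      have h1 := (mem_filter.1 hy).2
      exact mem_filter.2 ⟨mem_univ _, fun h => h1.1 (hcol1 y _ h), h1.2⟩
    exact_mod_cast card_le_card this
  · refine (hU2 i).trans ?_
    have : U i ⊆ univ.filter fun x => col x = i := fun x hx =>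
      mem_filter.2 ⟨mem_univ _, hcol1 x i hx⟩
    exact_mod_cast card_le_card this

end Pool.Agent.H563Z.GT
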