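import Pool.Agent.H563Z.GT.C

set_option autoImplicit false
set_option linter.unusedSectionVars false
set_option maxHeartbeats 400000

open Finset SimpleGraph Filter

namespace Pool.Agent.H563Z.GT

theorem structure_thm (s D : ℕ) (η : ℝ) (hη : 0 < η) :
    ∃ ε : ℝ, 0 < ε ∧ ∀ᶠ n : ℕ in atTop, ∀ (G : SimpleGraph (Fin n)) [DecidableRel G.Adj],
      (FG s D).Free G → (∀ x, (1 - 1 / ((s : ℝ) + 2) - ε) * n ≤ G.degree x) →
      ∃ col : Fin n → Fin (s + 2),
        (∀ x, ((univ.filter fun y => col y ≠ col x ∧ ¬ G.Adj x y).card : ℝ) ≤ η * n) ∧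
        ∀ i, (1 / ((s : ℝ) + 2) - η) * n ≤ (univ.filter fun x => col x = i).card := by
  have hs : (0 : ℝ) ≤ s := by positivity
  have hD : (0 : ℝ) ≤ D := by positivity
  obtain ⟨c1, hc1⟩ : ∃ c1 : ℝ, c1 = ((s : ℝ) + 2) * (D + 6) + 1 := ⟨_, rfl⟩
  obtain ⟨c2, hc2⟩ : ∃ c2 : ℝ, c2 = 3 * (1 + ((s : ℝ) + 2) * (D + 1)) := ⟨_, rfl⟩
  have hc11 : 1 ≤ c1 := by rw [hc1]; nlinarith
  have hc21 : 1 ≤ c2 := by rw [hc2]; nlinarith
  obtain ⟨ε, hε0, hε1, hε2⟩ : ∃ ε : ℝ, 0 < ε ∧ c2 * (c1 * ε) ≤ η ∧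
      2 * ε ≤ 1 / (((s : ℝ) + 1) * (s + 2)) := by
    refine ⟨min (η / (c2 * c1)) (1 / (2 * (((s : ℝ) + 1) * (s + 2)))), by positivity, ?_, ?_⟩
    · have h1 : min (η / (c2 * c1)) (1 / (2 * (((s : ℝ) + 1) * (s + 2)))) ≤ η / (c2 * c1) :=
        min_le_left _ _
      rw [le_div_iff₀ (by positivity)] at h1
      linarith
    · have h1 : min (η / (c2 * c1)) (1 / (2 * (((s : ℝ) + 1) * (s + 2)))) ≤
        1 / (2 * (((s : ℝ) + 1) * (s + 2))) := min_le_right _ _
      have h2 : 1 / (((s : ℝ) + 1) * (s + 2)) = 2 * (1 / (2 * (((s : ℝ) + 1) * (s + 2)))) := by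
        field_simp
      linarith
  have hε3 : ε ≤ 1 := by
    have : 1 / (((s : ℝ) + 1) * (s + 2)) ≤ 1 := by
      rw [div_le_one (by positivity)]; nlinarith
    linarith
  obtain ⟨lam, hl1, hl2⟩ : ∃ lam : ℕ, D + 1 ≤ lam ∧ (D : ℝ) + 1 ≤ ε * lam := by
    refine ⟨max (D + 1) ⌈((D : ℝ) + 1) / ε⌉₊, le_max_left _ _, ?_⟩
    have h1 : ((D : ℝ) + 1) / ε ≤ (⌈((D : ℝ) + 1) / ε⌉₊ : ℕ) := Nat.le_ceil _
    have h2 : ((⌈((D : ℝ) + 1) / ε⌉₊ : ℕ) : ℝ) ≤ (max (D + 1) ⌈((D : ℝ) + 1) / ε⌉₊ : ℕ) := by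
      exact_mod_cast le_max_right _ _
    rw [div_le_iff₀ hε0] at h1
    nlinarith
  refine ⟨ε, hε0, ?_⟩
  filter_upwards [eventually_completeEquipartiteGraph_isContained_of_minDegree hε0 (s + 1)
    (D + 1 + (D + 2) * lam), eventually_ge_atTop lam] with n hES hn G _ hfree hdeg
  have hnr : (lam : ℝ) ≤ n := by exact_mod_cast hn
  have hn0 : 0 < n := by omega
  have : Nonempty (Fin n) := ⟨⟨0, hn0⟩⟩
  have hmin : (G.minDegree : ℝ) ≥ (1 - 1 / ((s + 1 : ℕ) : ℝ) + ε) * n := by
    obtain ⟨v, hv⟩ := G.exists_minimal_degree_vertex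
    rw [hv]
    refine le_trans ?_ (hdeg v)
    have h1 : 1 / (((s : ℝ) + 1) * (s + 2)) = 1 / ((s : ℝ) + 1) - 1 / ((s : ℝ) + 2) := by
      field_simp
      ring
    have h2 : (0 : ℝ) ≤ n := by positivity
    push_cast
    refine mul_le_mul_of_nonneg_right ?_ h2
    linarith
  obtain ⟨f⟩ := hES hmin
  have hnn : ∀ x, ((univ.filter fun y => ¬ G.Adj x y).card : ℝ) ≤
      (1 / ((s : ℝ) + 2) + ε) * Fintype.card (Fin n) := by
    intro x
    have h1 := card_filter_add_card_filter_not (s := (univ : Finset (Fin n)))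
      (fun y => G.Adj x y)
    have h2 : (univ.filter fun y => G.Adj x y).card = G.degree x := by
      rw [← card_neighborFinset_eq_degree, neighborFinset_eq_filter]
    rw [h2, card_univ, Fintype.card_fin] at h1
    have h3 : (G.degree x : ℝ) + ((univ.filter fun y => ¬ G.Adj x y).card : ℝ) = n := by
      exact_mod_cast h1
    have h4 := hdeg x
    rw [Fintype.card_fin]
    linarith
  obtain ⟨U, hU1, hU2, hU3⟩ := step1 (G := G) ε hε0 hε3 hl1 hl2 hfree hnn
    (fun i => univ.image fun a => f (i, a)) (by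
      intro i
      have h6 : Function.Injective fun a => f (i, a) := fun a b h => by
        have := f.injective h
        simpa using this
      rw [card_image_of_injective _ h6]
      simp) (by
      intro i j hij x hx y hy
      obtain ⟨a, -, rfl⟩ := mem_image.1 hx
      obtain ⟨b, -, rfl⟩ := mem_image.1 hy
      exact f.toHom.map_adj (completeEquipartiteGraph_adj.2 hij))
  rw [Fintype.card_fin] at hnn hU2
  rw [← hc1] at hU2
  have hεn : 0 ≤ ε * n := by positivity
  have hεn1 : ε * n ≤ c1 * ε * n := by nlinarith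
  have hεn2 : ε * lam ≤ ε * n := by gcongr
  obtain ⟨col, hcol1, hcol2⟩ := step2 (G := G) (1 / ((s : ℝ) + 2) * n) (c1 * ε * n)
    (by positivity) hfree (fun x => (hnn x).trans (by linarith)) U hU1
    (fun i => le_trans (by linarith) (hU2 i)) (by linarith) hU3
  have h5 : c2 * (c1 * ε) * n ≤ η * n := by gcongr
  refine ⟨col, fun x => (hcol1 x).trans ?_, fun i => le_trans ?_ (hcol2 i)⟩
  · rw [← hc2]; linarith
  · have : c1 * ε * n ≤ c2 * (c1 * ε * n) := by nlinarith
    linarith

variable {V : Type} {G : SimpleGraph V} [DecidableEq V] [DecidableRel G.Adj] [Fintype V]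

/-- extension by completely joined sets in other classes -/
lemma extend {k m t : ℕ} (col : V → Fin k) (L M : ℝ) (hL : 0 ≤ L)
    (h1 : ∀ x, ((univ.filter fun y => col y ≠ col x ∧ ¬ G.Adj x y).card : ℝ) ≤ L)
    (h2 : ∀ i, M ≤ (univ.filter fun x => col x = i).card)
    (e : Fin m → Fin k) (he : Function.Injective e) (Z : Finset V)
    (hZ : ∀ z ∈ Z, ∀ l, col z ≠ e l) (hM : (t : ℝ) + (m * t + Z.card) * L ≤ M) :
    ∃ T : Fin m → Finset V, (∀ l, (T l).card = t) ∧
      (∀ l l', l ≠ l' → ∀ x ∈ T l, ∀ y ∈ T l', G.Adj x y) ∧ ∀ l, ∀ y ∈ T l, ∀ z ∈ Z, G.Adj z y := by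
  have hb : ∀ (x : V) (i : Fin k) (S : Finset V), (∀ y ∈ S, col y = i) → col x ≠ i →
      ((S.filter fun y => ¬ G.Adj x y).card : ℝ) ≤ L := by
    intro x i S hS hx
    refine le_trans ?_ (h1 x)
    have : (S.filter fun y => ¬ G.Adj x y) ⊆ univ.filter fun y => col y ≠ col x ∧ ¬ G.Adj x y := by
      intro y hy
      have h3 := mem_filter.1 hy
      exact mem_filter.2 ⟨mem_univ _, fun h => hx (h.symm.trans (hS y h3.1)), h3.2⟩
    exact_mod_cast card_le_card this
  have hex : ∀ l, ∃ U' : Finset V, (∀ y ∈ U', col y = e l) ∧ (∀ y ∈ U', ∀ z ∈ Z, G.Adj z y) ∧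
      M ≤ (U'.card : ℝ) + Z.card * L := by
    intro l
    obtain ⟨U', hU1, hU2, hU3⟩ := common_nbhd' (G := G) Z (univ.filter fun x => col x = e l) L
      (fun z hz => hb z (e l) _ (fun y hy => (mem_filter.1 hy).2) (hZ z hz l))
    exact ⟨U', fun y hy => (mem_filter.1 (hU1 hy)).2, hU2, (h2 _).trans hU3⟩
  choose U hU1 hU2 hU3 using hex
  obtain ⟨T, hT1, hT2⟩ := greedy (G := G) t L hL univ U (by
    intro i j hij x hx
    refine hb x (e j) _ (hU1 j) ?_
    rw [hU1 i x hx]
    exact fun h => hij (he h)) (by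
    intro i _
    have := hU3 i
    simp only [card_univ, Fintype.card_fin]
    nlinarith)
  exact ⟨T, fun l => (hT1 l (mem_univ _)).2, fun l l' h => hT2 l (mem_univ _) l' (mem_univ _) h,
    fun l y hy => hU2 l y ((hT1 l (mem_univ _)).1 hy)⟩

/-- bounded inner degrees -/
lemma inner_deg {s d : ℕ} (hfree : (FG s (d + 1)).Free G) (col : V → Fin (s + 2)) (L M : ℝ)
    (hL : 0 ≤ L)
    (h1 : ∀ x, ((univ.filter fun y => col y ≠ col x ∧ ¬ G.Adj x y).card : ℝ) ≤ L)
    (h2 : ∀ i, M ≤ (univ.filter fun x => col x = i).card)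
    (hM : (d : ℝ) + 3 + ((s + 1) * (d + 2) + (d + 3)) * L ≤ M) (x : V) :
    (univ.filter fun y => G.Adj x y ∧ col y = col x).card ≤ d := by
  by_contra hcon
  push Not at hcon
  obtain ⟨A, hA, hAc⟩ := Finset.exists_subset_card_eq (Nat.succ_le_of_lt hcon)
  have hpos : (0 : ℝ) ≤ ((s + 1) * (d + 2) + (d + 3)) * L := by positivity
  obtain ⟨a', ha1, ha2⟩ : ∃ a' ∈ (univ.filter fun y => col y = col x), a' ∉ insert x A := by
    apply Finset.exists_mem_notMem_of_card_lt_card
    have h3 := card_insert_le x A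
    have h4 : ((d : ℝ) + 3) ≤ (univ.filter fun y => col y = col x).card := by
      have := h2 (col x)
      linarith
    have h5 : d + 3 ≤ (univ.filter fun y => col y = col x).card := by exact_mod_cast h4
    omega
  have hZc : ((insert a' (insert x A)).card : ℝ) ≤ d + 3 := by
    have h3 := card_insert_le x A
    have h4 := card_insert_le a' (insert x A)
    have : (insert a' (insert x A)).card ≤ d + 3 := by omega
    exact_mod_cast this
  obtain ⟨T, hT1, hT2, hT3⟩ := extend (G := G) (t := d + 2) col L M hL h1 h2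
    (Fin.succAbove (col x)) Fin.succAbove_right_injective (insert a' (insert x A)) (by
      intro z hz l
      have : col z = col x := by
        rcases mem_insert.1 hz with rfl | hz
        · exact (mem_filter.1 ha1).2
        · rcases mem_insert.1 hz with rfl | hz
          · rfl
          · exact (mem_filter.1 (hA hz)).2.2
      rw [this]
      exact (Fin.succAbove_ne _ _).symm) (by
      push_cast
      have : ((insert a' (insert x A)).card : ℝ) * L ≤ (d + 3) * L := by gcongr
      nlinarith)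
  refine hfree (embed_apex x a' A hAc.ge (fun h => ha2 (mem_insert_of_mem h))
    (fun h => ha2 (h ▸ mem_insert_self _ _)) (fun y hy => (mem_filter.1 (hA hy)).2.1) T
    (fun l => (hT1 l).ge) hT2 ?_ ?_ ?_)
  · exact fun l y hy => hT3 l y hy x (mem_insert_of_mem (mem_insert_self _ _))
  · exact fun l y hy => hT3 l y hy a' (mem_insert_self _ _)
  · exact fun l y hy z hz => hT3 l y hy z (mem_insert_of_mem (mem_insert_of_mem hz))

/-- a class with many inner edges forces all other classes to be independent -/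
lemma others_indep {s d : ℕ} (hfree : (FG s (d + 1)).Free G) (col : V → Fin (s + 2)) (L M : ℝ)
    (hL : 0 ≤ L)
    (h1 : ∀ x, ((univ.filter fun y => col y ≠ col x ∧ ¬ G.Adj x y).card : ℝ) ≤ L)
    (h2 : ∀ i, M ≤ (univ.filter fun x => col x = i).card)
    (hM : (d : ℝ) + 3 + (s * (d + 1) + (2 * d + 5)) * L ≤ M)
    (hdeg : ∀ x, (univ.filter fun y => G.Adj x y ∧ col y = col x).card ≤ d) (i : Fin (s + 2))
    (hi : 4 * d * (d + 1) + 6 * d * L < ((prs G (univ.filter fun x => col x = i)).card : ℝ))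
    (a' b' : V) (hab : G.Adj a' b') (hc : col a' = col b') : col a' = i := by
  by_contra hne
  have hpos : (0 : ℝ) ≤ (s * (d + 1) + (2 * d + 5)) * L := by positivity
  have hd0 : (0 : ℝ) ≤ d := by positivity
  obtain ⟨v, hv1, hv2⟩ : ∃ v ∈ (univ.filter fun y => col y = col a'), v ∉ ({a', b'} : Finset V) := by
    apply Finset.exists_mem_notMem_of_card_lt_card
    have h3 : ({a', b'} : Finset V).card ≤ 2 := card_le_two
    have h4 : (3 : ℝ) ≤ (univ.filter fun y => col y = col a').card := by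
      have := h2 (col a')
      linarith
    have h5 : 3 ≤ (univ.filter fun y => col y = col a').card := by exact_mod_cast h4
    omega
  have hvc : col v = col a' := (mem_filter.1 hv1).2
  obtain ⟨C, hC⟩ : ∃ C : Finset V, C = univ.filter fun x => col x = i := ⟨_, rfl⟩
  have hCm : ∀ y, y ∈ C ↔ col y = i := fun y => by simp [hC]
  have hz3 : ∀ z ∈ ({v, a', b'} : Finset V), col z = col a' := by
    intro z hz
    simp only [mem_insert, mem_singleton] at hz
    rcases hz with rfl | rfl | rfl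
    · exact hvc
    · rfl
    · exact hc.symm
  obtain ⟨Y, hY1, hY2, hY3⟩ := common_nbhd' (G := G) {v, a', b'} C L (by
    intro z hz
    refine le_trans ?_ (h1 z)
    have : (C.filter fun y => ¬ G.Adj z y) ⊆ univ.filter fun y => col y ≠ col z ∧ ¬ G.Adj z y := by
      intro y hy
      have h3 := mem_filter.1 hy
      refine mem_filter.2 ⟨mem_univ _, fun h => hne ?_, h3.2⟩
      rw [← hz3 z hz, ← h, (hCm y).1 h3.1]
    exact_mod_cast card_le_card this)
  have hCdeg : ∀ x ∈ C, (C.filter fun y => G.Adj x y).card ≤ d := by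
    intro x hx
    refine le_trans (card_le_card ?_) (hdeg x)
    intro y hy
    have h3 := mem_filter.1 hy
    exact mem_filter.2 ⟨mem_univ _, h3.2, ((hCm y).1 h3.1).trans ((hCm x).1 hx).symm⟩
  have h3 := prs_sdiff (G := G) C (C \ Y) d hCdeg
  rw [Finset.sdiff_sdiff_eq_self hY1] at h3
  have h4 : ((C \ Y).card : ℝ) ≤ 3 * L := by
    rw [card_sdiff_of_subset hY1, Nat.cast_sub (card_le_card hY1)]
    have h5 : (({v, a', b'} : Finset V).card : ℝ) ≤ 3 := by exact_mod_cast card_le_three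
    have : (({v, a', b'} : Finset V).card : ℝ) * L ≤ 3 * L := by gcongr
    linarith
  have h5 : 4 * d * (d + 1) < (prs G Y).card := by
    have h6 : ((prs G C).card : ℝ) ≤ (prs G Y).card + 2 * d * (C \ Y).card := by exact_mod_cast h3
    rw [← hC] at hi
    have h7 : 2 * (d : ℝ) * (C \ Y).card ≤ 2 * d * (3 * L) := by gcongr
    have : 4 * (d : ℝ) * (d + 1) < (prs G Y).card := by linarith
    exact_mod_cast this
  obtain ⟨m, hm1, hm2, hm3⟩ := matching (G := G) d (d + 1) Y (fun x hx =>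
    le_trans (card_le_card (filter_subset_filter _ hY1)) (hCdeg x (hY1 hx))) h5
  obtain ⟨w, hw1, hw2, hw3⟩ := core_matching (G := G) v a' b' m hm1 hm2 hab
    (fun h => hv2 (by simp [h])) (fun h => hv2 (by simp [h]))
    (fun p => hY2 _ (hm3 p) v (by simp)) (fun p => hY2 _ (hm3 p) a' (by simp))
    (fun p => hY2 _ (hm3 p) b' (by simp))
  have hS : ((univ : Finset (Fin (s + 2))) \ {i, col a'}).card = s := by
    rw [card_sdiff_of_subset (subset_univ _), card_pair (Ne.symm hne)]
    simp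
  let e := ((univ : Finset (Fin (s + 2))) \ {i, col a'}).orderEmbOfFin hS
  have he : ∀ l, e l ∈ (univ : Finset (Fin (s + 2))) \ {i, col a'} := fun l =>
    Finset.orderEmbOfFin_mem _ hS l
  obtain ⟨T, hT1, hT2, hT3⟩ := extend (G := G) (t := d + 1) col L M hL h1 h2 e e.injective
    (univ.image w) (by
      intro z hz l h
      obtain ⟨x, -, rfl⟩ := mem_image.1 hz
      have h7 := (mem_sdiff.1 (he l)).2
      apply h7
      rw [← h]
      rcases hw3 x with h8 | h8 | h8 | ⟨p, h8⟩
      · rw [h8, hvc]; simp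
      · rw [h8]; simp
      · rw [h8, ← hc]; simp
      · rw [h8, (hCm _).1 (hY1 (hm3 p))]; simp) (by
      have h7 : ((univ.image w).card : ℝ) ≤ 2 * d + 5 := by
        have : (univ.image w).card ≤ 2 * d + 5 := by
          refine card_image_le.trans ?_
          simp
          omega
        exact_mod_cast this
      have : ((univ.image w).card : ℝ) * L ≤ (2 * d + 5) * L := by gcongr
      push_cast
      nlinarith)
  exact hfree (embed_join w hw1 hw2 T (fun l => (hT1 l).ge) hT2
    (fun l x y hy => hT3 l y hy _ (mem_image_of_mem _ (mem_univ x))))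

end Pool.Agent.H563Z.GT
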