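import Pool.Agent.H563Z.GT.D

set_option autoImplicit false
set_option linter.unusedSectionVars false
set_option maxHeartbeats 400000

open Finset SimpleGraph Filter

namespace Pool.Agent.H563Z.GT

variable {V : Type} [Fintype V]

/-- the degree, free of decidability instances -/
noncomputable def dg (G : SimpleGraph V) (v : V) : ℕ := (G.neighborSet v).ncard

lemma dg_eq (G : SimpleGraph V) [DecidableRel G.Adj] (v : V) : dg G v = G.degree v := by
  rw [dg, ← card_neighborFinset_eq_degree, neighborFinset_def, Set.ncard_eq_toFinset_card']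

lemma dg_eq' (G : SimpleGraph V) [DecidableRel G.Adj] (v : V) :
    dg G v = (univ.filter fun y => G.Adj v y).card := by
  rw [dg_eq, ← card_neighborFinset_eq_degree, neighborFinset_eq_filter]

lemma ncard_edge (G : SimpleGraph V) [DecidableRel G.Adj] :
    G.edgeSet.ncard = G.edgeFinset.card := by
  rw [edgeFinset, Set.ncard_eq_toFinset_card']

lemma sum_dg (G : SimpleGraph V) : ∑ v, dg G v = 2 * G.edgeSet.ncard := by
  classical
  rw [ncard_edge, ← sum_degrees_eq_twice_card_edges]
  exact sum_congr rfl fun v _ => dg_eq G v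

/-- the star with centre `v` and leaves `e` as a subgraph -/
def cherry (G : SimpleGraph V) (v : V) (e : Finset V) : G.Subgraph where
  verts := insert v {x | x ∈ e ∧ G.Adj v x}
  Adj x y := (x = v ∧ y ∈ e ∧ G.Adj v y) ∨ (y = v ∧ x ∈ e ∧ G.Adj v x)
  adj_sub := by
    rintro x y (⟨rfl, -, h⟩ | ⟨rfl, -, h⟩)
    · exact h
    · exact h.symm
  edge_vert := by
    rintro x y (⟨rfl, -, -⟩ | ⟨rfl, h1, h2⟩)
    · exact Set.mem_insert _ _
    · exact Set.mem_insert_of_mem _ ⟨h1, h2⟩
  symm := ⟨fun x y h => h.symm⟩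

lemma toSubgraph_eq [DecidableEq V] (G : SimpleGraph V) (f : Copy (pathGraph 3) G) :
    f.toSubgraph = cherry G (f 1) {f 0, f 2} := by
  have h0 : G.Adj (f 1) (f 0) := f.toHom.map_adj (by simp [pathGraph_adj])
  have h2 : G.Adj (f 1) (f 2) := f.toHom.map_adj (by simp [pathGraph_adj])
  ext x y
  · simp only [Subgraph.map_verts, Subgraph.verts_top, Set.image_univ, Set.mem_range, cherry,
      Set.mem_insert_iff, Set.mem_ofPred_eq, mem_insert, mem_singleton, Copy.coe_toHom]
    constructor
    · rintro ⟨i, rfl⟩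
      fin_cases i
      · exact Or.inr ⟨Or.inl rfl, h0⟩
      · exact Or.inl rfl
      · exact Or.inr ⟨Or.inr rfl, h2⟩
    · rintro (rfl | ⟨rfl | rfl, -⟩)
      · exact ⟨1, rfl⟩
      · exact ⟨0, rfl⟩
      · exact ⟨2, rfl⟩
  · simp only [Subgraph.map_adj, Relation.Map, Subgraph.top_adj, cherry, mem_insert,
      mem_singleton, Copy.coe_toHom]
    constructor
    · rintro ⟨i, j, hij, rfl, rfl⟩
      rw [pathGraph_adj] at hij
      fin_cases i <;> fin_cases j <;> simp at hij
      · exact Or.inr ⟨rfl, Or.inl rfl, h0⟩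
      · exact Or.inl ⟨rfl, Or.inl rfl, h0⟩
      · exact Or.inl ⟨rfl, Or.inr rfl, h2⟩
      · exact Or.inr ⟨rfl, Or.inr rfl, h2⟩
    · rintro (⟨rfl, rfl | rfl, -⟩ | ⟨rfl, rfl | rfl, -⟩)
      · exact ⟨1, 0, by simp [pathGraph_adj], rfl, rfl⟩
      · exact ⟨1, 2, by simp [pathGraph_adj], rfl, rfl⟩
      · exact ⟨0, 1, by simp [pathGraph_adj], rfl, rfl⟩
      · exact ⟨2, 1, by simp [pathGraph_adj], rfl, rfl⟩

lemma copyCount_path (G : SimpleGraph V) :
    G.copyCount (pathGraph 3) = ∑ v, (dg G v).choose 2 := by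
  classical
  rw [copyCount_eq_card_image_copyToSubgraph]
  have h1 : ∑ v, (dg G v).choose 2 =
      ((univ : Finset V).sigma fun v => powersetCard 2 (G.neighborFinset v)).card := by
    rw [card_sigma]
    refine sum_congr rfl fun v _ => ?_
    rw [card_powersetCard, dg_eq, card_neighborFinset_eq_degree]
  rw [h1]
  symm
  refine card_bij (fun p _ => cherry G p.1 p.2) ?_ ?_ ?_
  · rintro ⟨v, e⟩ hp
    simp only [mem_sigma, mem_univ, true_and, mem_powersetCard] at hp
    obtain ⟨a, b, hab, rfl⟩ := card_eq_two.1 hp.2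
    have ha : G.Adj v a := by simpa using hp.1 (show a ∈ ({a, b} : Finset V) by simp)
    have hb : G.Adj v b := by simpa using hp.1 (show b ∈ ({a, b} : Finset V) by simp)
    let g : Fin 3 → V := ![a, v, b]
    have hg : ∀ i j, (pathGraph 3).Adj i j → G.Adj (g i) (g j) := by
      intro i j hij
      rw [pathGraph_adj] at hij
      fin_cases i <;> fin_cases j <;> simp at hij
      · exact ha.symm
      · exact ha
      · exact hb
      · exact hb.symm
    have hgi : Function.Injective g := by
      intro i j hij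
      fin_cases i <;> fin_cases j
      all_goals first
        | rfl
        | exact absurd hij ha.ne
        | exact absurd hij ha.ne'
        | exact absurd hij hb.ne
        | exact absurd hij hb.ne'
        | exact absurd hij hab
        | exact absurd hij hab.symm
    let f : Copy (pathGraph 3) G := ⟨⟨g, fun {i j} h => hg i j h⟩, hgi⟩
    exact mem_image.2 ⟨f, mem_univ _, toSubgraph_eq G f⟩
  · rintro ⟨v, e⟩ hp ⟨v', e'⟩ hp' h
    simp only [mem_sigma, mem_univ, true_and, mem_powersetCard] at hp hp'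
    have hadj : ∀ x y, (cherry G v e).Adj x y ↔ (cherry G v' e').Adj x y := by
      intro x y
      have : cherry G v e = cherry G v' e' := h
      rw [this]
    have hv : v = v' := by
      by_contra hne
      obtain ⟨a, b, hab, rfl⟩ := card_eq_two.1 hp.2
      have ha : G.Adj v a := by simpa using hp.1 (show a ∈ ({a, b} : Finset V) by simp)
      have hb : G.Adj v b := by simpa using hp.1 (show b ∈ ({a, b} : Finset V) by simp)
      have h2 := (hadj v a).1 (Or.inl ⟨rfl, by simp, ha⟩)
      have h3 := (hadj v b).1 (Or.inl ⟨rfl, by simp, hb⟩)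
      rcases h2 with h2 | h2
      · exact hne h2.1
      · rcases h3 with h3 | h3
        · exact hne h3.1
        · exact hab (h2.1.trans h3.1.symm)
    subst hv
    have he : e = e' := by
      ext x
      constructor
      · intro hx
        have hx' : G.Adj v x := by simpa using hp.1 hx
        rcases (hadj v x).1 (Or.inl ⟨rfl, hx, hx'⟩) with h2 | h2
        · exact h2.2.1
        · exact absurd h2.1.symm hx'.ne
      · intro hx
        have hx' : G.Adj v x := by simpa using hp'.1 hx
        rcases (hadj v x).2 (Or.inl ⟨rfl, hx, hx'⟩) with h2 | h2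
        · exact h2.2.1
        · exact absurd h2.1.symm hx'.ne
    subst he
    rfl
  · intro H hH
    obtain ⟨f, -, rfl⟩ := mem_image.1 hH
    have h0 : G.Adj (f 1) (f 0) := f.toHom.map_adj (by simp [pathGraph_adj])
    have h2 : G.Adj (f 1) (f 2) := f.toHom.map_adj (by simp [pathGraph_adj])
    refine ⟨⟨f 1, {f 0, f 2}⟩, ?_, (toSubgraph_eq G f).symm⟩
    simp only [mem_sigma, mem_univ, true_and, mem_powersetCard]
    constructor
    · intro x hx
      simp only [mem_insert, mem_singleton] at hx
      rcases hx with rfl | rfl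
      · simpa using h0
      · simpa using h2
    · refine card_pair fun h => ?_
      have := f.injective h
      simp at this

/-- regular graphs of even degree on a given set -/
lemma exists_regular [DecidableEq V] (c : ℕ) (S : Finset V) (hS : 2 * c < S.card) :
    ∃ R : SimpleGraph V, (∀ u v, R.Adj u v → u ∈ S ∧ v ∈ S) ∧ ∀ u ∈ S, dg R u = 2 * c := by
  classical
  obtain ⟨p, hp⟩ : ∃ p, p = S.card := ⟨_, rfl⟩
  rw [← hp] at hS
  have : NeZero p := ⟨by omega⟩
  have hcard : Fintype.card S = Fintype.card (ZMod p) := by simp [hp]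
  let e : S ≃ ZMod p := Fintype.equivOfCardEq hcard
  let I : Finset ℤ := (Icc (-(c : ℤ)) c).erase 0
  have hinj : ∀ a ∈ Icc (-(c : ℤ)) c, ∀ b ∈ Icc (-(c : ℤ)) c, (a : ZMod p) = b → a = b := by
    intro a ha b hb hab
    rw [ZMod.intCast_eq_intCast_iff_dvd_sub] at hab
    rw [mem_Icc] at ha hb
    have := Int.eq_zero_of_abs_lt_dvd hab (by
      rw [abs_lt]
      constructor <;> omega)
    omega
  let A : Finset (ZMod p) := I.image fun a : ℤ => (a : ZMod p)
  have hA : A.card = 2 * c := by
    rw [card_image_of_injOn (fun a ha b hb h =>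
      hinj a (mem_of_mem_erase ha) b (mem_of_mem_erase hb) h), card_erase_of_mem (by simp)]
    simp
    omega
  have hA0 : (0 : ZMod p) ∉ A := by
    intro h
    obtain ⟨a, ha, h0⟩ := mem_image.1 h
    exact (mem_erase.1 ha).1 (hinj a (mem_of_mem_erase ha) 0 (by simp) (by simpa using h0))
  have hAneg : ∀ x ∈ A, -x ∈ A := by
    intro x hx
    obtain ⟨a, ha, rfl⟩ := mem_image.1 hx
    refine mem_image.2 ⟨-a, ?_, by simp⟩
    simp only [I, mem_erase, mem_Icc] at ha ⊢
    omega
  let R : SimpleGraph V :=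
    { Adj := fun u v => ∃ (hu : u ∈ S) (hv : v ∈ S), e ⟨v, hv⟩ - e ⟨u, hu⟩ ∈ A
      symm := ⟨fun u v ⟨hu, hv, h⟩ => ⟨hv, hu, by simpa using hAneg _ h⟩⟩
      loopless := ⟨fun u ⟨hu, hv, h⟩ => hA0 (by simpa using h)⟩ }
  refine ⟨R, fun u v ⟨hu, hv, _⟩ => ⟨hu, hv⟩, fun u hu => ?_⟩
  rw [dg_eq', ← hA]
  symm
  refine card_bij (fun a _ => ((e.symm (e ⟨u, hu⟩ + a) : S) : V)) ?_ ?_ ?_
  · intro a ha
    refine mem_filter.2 ⟨mem_univ _, hu, (e.symm (e ⟨u, hu⟩ + a)).2, ?_⟩
    simpa using ha
  · intro a _ b _ h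
    have := e.symm.injective (Subtype.ext h)
    simpa using this
  · intro v hv
    obtain ⟨hu', hv', h⟩ := (mem_filter.1 hv).2
    exact ⟨_, h, by simp⟩

/-- the construction: a complete multipartite graph with a regular graph in one class -/
lemma construct [DecidableEq V] {s c : ℕ} (col : V → Fin (s + 2)) (i0 : Fin (s + 2))
    (h : 2 * c < (univ.filter fun x => col x = i0).card) :
    ∃ G' : SimpleGraph V, (FG s (2 * c + 1)).Free G' ∧ ∀ u, (dg G' u : ℝ) =
      Fintype.card V - (univ.filter fun x => col x = col u).card +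
        (if col u = i0 then 2 * (c : ℝ) else 0) := by
  classical
  obtain ⟨R, hR1, hR2⟩ := exists_regular c _ h
  have hR3 : ∀ u v, R.Adj u v → col u = i0 ∧ col v = i0 := fun u v huv =>
    ⟨(mem_filter.1 (hR1 u v huv).1).2, (mem_filter.1 (hR1 u v huv).2).2⟩
  let G' : SimpleGraph V :=
    { Adj := fun u v => col u ≠ col v ∨ R.Adj u v
      symm := ⟨fun u v h => h.imp Ne.symm R.adj_symm⟩
      loopless := ⟨fun u h => h.elim (fun h => h rfl) (R.loopless.irrefl u)⟩ }
  have hG' : ∀ u v, G'.Adj u v ↔ col u ≠ col v ∨ R.Adj u v := fun _ _ => Iff.rfl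
  refine ⟨G', free_of_col col i0 ?_ ?_, fun u => ?_⟩
  · intro u v huv hc
    exact (hR3 u v (((hG' u v).1 huv).resolve_left fun h => h hc)).1
  · intro u hu
    rw [← hR2 u (mem_filter.2 ⟨mem_univ _, hu⟩), dg_eq']
    refine card_le_card fun w hw => ?_
    have h1 := (mem_filter.1 hw).2
    exact mem_filter.2 ⟨mem_univ _,
      ((hG' u w).1 h1.1).resolve_left fun h => h (hu.trans h1.2.symm)⟩
  · have h1 : (univ.filter fun y => G'.Adj u y) =
        (univ.filter fun y => ¬ col y = col u) ∪ (univ.filter fun y => R.Adj u y) := by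
      ext y
      simp only [mem_filter, mem_univ, true_and, mem_union, hG', ne_eq, eq_comm]
    have h2 : Disjoint (univ.filter fun y => ¬ col y = col u) (univ.filter fun y => R.Adj u y) := by
      rw [Finset.disjoint_left]
      intro y hy hy'
      have := hR3 u y (mem_filter.1 hy').2
      exact (mem_filter.1 hy).2 (this.2.trans this.1.symm)
    have h3 := card_filter_add_card_filter_not (s := (univ : Finset V)) (fun y => col y = col u)
    rw [card_univ] at h3
    have h4 : ((univ.filter fun y => R.Adj u y).card : ℝ) = if col u = i0 then 2 * (c : ℝ) else 0 := by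
      split_ifs with hu
      · rw [← dg_eq', hR2 u (mem_filter.2 ⟨mem_univ _, hu⟩)]
        push_cast
        rfl
      · rw [Nat.cast_eq_zero, card_eq_zero, filter_eq_empty_iff]
        exact fun y _ hy => hu (hR3 u y hy).1
    rw [dg_eq', h1, card_union_of_disjoint h2, Nat.cast_add, h4, ← h3]
    push_cast
    ring

end Pool.Agent.H563Z.GT
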