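import Pool.Agent.H563Z.GT.E

set_option autoImplicit false
set_option linter.unusedSectionVars false
set_option maxHeartbeats 400000

open Finset SimpleGraph Filter

namespace Pool.Agent.H563Z.GT

lemma ex_lower (s d m : ℕ) :
    (1 - 1 / ((s : ℝ) + 2)) * (((s + 2) * m : ℕ) : ℝ) ^ 2 / 2 ≤
      extremalNumber ((s + 2) * m) (FG s (d + 1)) := by
  classical
  have hfree : (FG s (d + 1)).Free (completeEquipartiteGraph (s + 2) m) := by
    refine free_of_col (fun x => x.1) 0 ?_ ?_
    · intro u v huv hc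
      exact absurd hc (completeEquipartiteGraph_adj.1 huv)
    · intro u hu
      rw [filter_eq_empty_iff.2]
      · simp
      · intro w _ hw
        exact completeEquipartiteGraph_adj.1 hw.1 (hu.trans hw.2.symm)
  have h1 := card_edgeFinset_le_extremalNumber hfree
  rw [card_edgeFinset_completeEquipartiteGraph] at h1
  simp only [Fintype.card_prod, Fintype.card_fin] at h1
  have h2 : (((s + 2).choose 2 * m ^ 2 : ℕ) : ℝ) ≤ extremalNumber ((s + 2) * m) (FG s (d + 1)) := by
    exact_mod_cast h1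
  refine le_trans (le_of_eq ?_) h2
  push_cast [Nat.cast_choose_two]
  field_simp

lemma ex_jump (s d : ℕ) (ε : ℝ) (hε : 0 < ε) (n₀ : ℕ) :
    ∃ n, n₀ ≤ n ∧ (extremalNumber n (FG s (d + 1)) : ℝ) + (1 - 1 / ((s : ℝ) + 2) - ε) * (n + 1) ≤
      extremalNumber (n + 1) (FG s (d + 1)) := by
  by_contra hcon
  push Not at hcon
  obtain ⟨a, ha⟩ : ∃ a : ℝ, a = 1 - 1 / ((s : ℝ) + 2) := ⟨_, rfl⟩
  rw [← ha] at hcon
  have ha1 : a ≤ 1 := by
    rw [ha]
    have : (0 : ℝ) ≤ 1 / ((s : ℝ) + 2) := by positivity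
    linarith
  obtain ⟨C, hC⟩ : ∃ C : ℝ, C = extremalNumber n₀ (FG s (d + 1)) - (a - ε) * (n₀ * (n₀ + 1) / 2) :=
    ⟨_, rfl⟩
  have h1 : ∀ n, n₀ ≤ n →
      (extremalNumber n (FG s (d + 1)) : ℝ) ≤ C + (a - ε) * (n * (n + 1) / 2) := by
    intro n hn
    induction n, hn using Nat.le_induction with
    | base => rw [hC]; linarith
    | succ n hn ih =>
      have := hcon n hn
      push_cast
      nlinarith
  obtain ⟨m, hm⟩ := exists_nat_gt (max (n₀ : ℝ) ((2 * |C| + 1) / ε + 1))
  have hm1 : (n₀ : ℝ) < m := (le_max_left _ _).trans_lt hm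
  have hm2 : (2 * |C| + 1) / ε + 1 < m := (le_max_right _ _).trans_lt hm
  have hm3 : n₀ ≤ (s + 2) * m := by
    have : n₀ < m := by exact_mod_cast hm1
    nlinarith
  have h2 := h1 _ hm3
  have h3 := ex_lower s d m
  rw [← ha] at h3
  obtain ⟨N, hN⟩ : ∃ N : ℝ, N = (((s + 2) * m : ℕ) : ℝ) := ⟨_, rfl⟩
  rw [← hN] at h2 h3
  have hNm : (m : ℝ) ≤ N := by
    rw [hN]
    have : m ≤ (s + 2) * m := by nlinarith
    exact_mod_cast this
  have hq : 0 ≤ (2 * |C| + 1) / ε := by positivity
  have hN1 : 1 ≤ N := by linarith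
  have hN2 : (2 * |C| + 1) / ε < N := by linarith
  rw [div_lt_iff₀ hε] at hN2
  have hC1 := le_abs_self C
  have hC2 := abs_nonneg C
  have h4 : ε * N * N ≤ 2 * C + N := by nlinarith
  nlinarith

lemma min_degree (s d : ℕ) (ε : ℝ) (hε : 0 < ε) (n₀ : ℕ) :
    ∃ n, n₀ ≤ n ∧ ∀ (G : SimpleGraph (Fin n)) [DecidableRel G.Adj], (FG s (d + 1)).Free G →
      (∀ G' : SimpleGraph (Fin n), (FG s (d + 1)).Free G' → G'.edgeSet.ncard ≤ G.edgeSet.ncard) →
      ∀ x, (1 - 1 / ((s : ℝ) + 2) - ε) * n ≤ G.degree x := by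
  obtain ⟨n, hn, h⟩ := ex_jump s d ε hε n₀
  refine ⟨n + 1, by omega, fun G _ hfree hext x => ?_⟩
  have h1 : extremalNumber (n + 1) (FG s (d + 1)) ≤ G.edgeFinset.card := by
    have := (extremalNumber_le_iff (V := Fin (n + 1)) (FG s (d + 1)) G.edgeFinset.card).2 (by
      intro G' _ hG'
      rw [← ncard_edge, ← ncard_edge]
      exact hext G' hG')
    simpa using this
  have h2 := card_edgeFinset_deleteIncidenceSet_le_extremalNumber hfree x
  rw [card_edgeFinset_deleteIncidenceSet] at h2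
  simp only [Fintype.card_fin, Nat.add_sub_cancel] at h2
  have h3 : extremalNumber (n + 1) (FG s (d + 1)) ≤ extremalNumber n (FG s (d + 1)) + G.degree x := by
    omega
  have h4 : (extremalNumber (n + 1) (FG s (d + 1)) : ℝ) ≤
      extremalNumber n (FG s (d + 1)) + G.degree x := by exact_mod_cast h3
  push_cast
  linarith

variable {V : Type} [Fintype V] [DecidableEq V]

lemma sum_classes {k : ℕ} (col : V → Fin k) (ψ : Fin k → ℝ) :
    ∑ x, ψ (col x) = ∑ i, ((univ.filter fun x => col x = i).card : ℝ) * ψ i := by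
  rw [← Finset.sum_fiberwise (s := univ) (g := col)]
  refine sum_congr rfl fun i _ => ?_
  rw [sum_congr rfl (g := fun _ => ψ i) (fun x hx => by rw [(mem_filter.1 hx).2])]
  rw [sum_const, nsmul_eq_mul]

lemma sum_two {k : ℕ} (f g : Fin k → ℝ) (i j : Fin k) (hij : i ≠ j)
    (h : ∀ l, l ≠ i → l ≠ j → f l = g l) :
    ∑ l, f l - ∑ l, g l = (f i - g i) + (f j - g j) := by
  rw [← sum_sub_distrib, ← sum_subset (subset_univ {i, j}), sum_pair hij]
  intro l _ hl
  simp only [mem_insert, mem_singleton, not_or] at hl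
  rw [h l hl.1 hl.2, sub_self]

lemma move_card {k : ℕ} (col : V → Fin k) (y : V) (j : Fin k) (_hy : col y ≠ j) (l : Fin k) :
    ((univ.filter fun x => Function.update col y j x = l).card : ℝ) =
      (univ.filter fun x => col x = l).card + (if l = j then 1 else 0) -
        (if l = col y then 1 else 0) := by
  have h1 : ∀ c : V → Fin k, ((univ.filter fun x => c x = l).card : ℝ) =
      (if c y = l then 1 else 0) + ∑ x ∈ univ.erase y, if c x = l then (1 : ℝ) else 0 := by
    intro c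
    rw [add_sum_erase univ (fun x => if c x = l then (1 : ℝ) else 0) (mem_univ y), card_filter]
    push_cast
    rfl
  rw [h1, h1]
  have h2 : ∑ x ∈ univ.erase y, (if Function.update col y j x = l then (1 : ℝ) else 0) =
      ∑ x ∈ univ.erase y, if col x = l then (1 : ℝ) else 0 :=
    sum_congr rfl fun x hx => by rw [Function.update_of_ne (mem_erase.1 hx).1]
  rw [h2, Function.update_self]
  simp only [eq_comm (a := l)]
  ring

/-- the value of a degree functional on the construction -/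
noncomputable def val {k : ℕ} (φ : ℝ → ℝ) (N c : ℝ) (i0 : Fin k) (ν : Fin k → ℝ) : ℝ :=
  ∑ i, ν i * φ (N - ν i + if i = i0 then 2 * c else 0)

lemma val_move {k : ℕ} (φ : ℝ → ℝ) (N c : ℝ) (i0 j : Fin k) (hij : i0 ≠ j) (ν ν' : Fin k → ℝ)
    (δ : ℝ) (h0 : ν' i0 = ν i0 + δ) (hj : ν' j = ν j - δ) (h : ∀ l, l ≠ i0 → l ≠ j → ν' l = ν l) :
    val φ N c i0 ν' - val φ N c i0 ν =
      ((ν i0 + δ) * φ (N - (ν i0 + δ) + 2 * c) - ν i0 * φ (N - ν i0 + 2 * c)) +
      ((ν j - δ) * φ (N - (ν j - δ)) - ν j * φ (N - ν j)) := by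
  unfold val
  rw [sum_two _ _ i0 j hij (fun l h1 h2 => by rw [h l h1 h2])]
  simp [h0, hj, hij.symm]

lemma final_arith (N p q c : ℝ) (hc : 16 ≤ c) (hq : 0 ≤ q) (hqc : 4 * N ≤ q * c) (hqN : q ≤ N)
    (h1 : ((p + 1) * (N - (p + 1) + 2 * c) - p * (N - p + 2 * c)) +
      ((q - 1) * (N - (q - 1)) - q * (N - q)) ≤ 0)
    (h2 : ((p + -1) * (N - (p + -1) + 2 * c) - p * (N - p + 2 * c)) +
      ((q - -1) * (N - (q - -1)) - q * (N - q)) ≤ 0)
    (h3 : ((p + -1) * ((N - (p + -1) + 2 * c) * ((N - (p + -1) + 2 * c) - 1)) -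
        p * ((N - p + 2 * c) * ((N - p + 2 * c) - 1))) +
      ((q - -1) * ((N - (q - -1)) * ((N - (q - -1)) - 1)) - q * ((N - q) * ((N - q) - 1))) ≤ 0) :
    False := by
  obtain ⟨σ, rfl⟩ : ∃ σ, p = q + c + σ := ⟨p - q - c, by ring⟩
  obtain ⟨β, rfl⟩ : ∃ β, N = q + β := ⟨N - q, by ring⟩
  have hσ1 : -1 ≤ σ := by nlinarith
  have hσ2 : σ ≤ 1 := by nlinarith
  have hβ : 0 ≤ β := by linarith
  have h4 : β * (4 * σ - 4) + 2 * q * (c - σ + 1) + (c - σ) * (c + 3 * σ - 1) + 2 ≤ 0 := by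
    nlinarith
  have h5 : 0 ≤ (c - σ) * (c + 3 * σ - 1) := mul_nonneg (by linarith) (by linarith)
  have h6 : 0 ≤ β * (σ + 1) := mul_nonneg hβ (by linarith)
  have h7 : 0 ≤ q * (1 - σ) := mul_nonneg hq (by linarith)
  nlinarith

theorem main (s n₀ : ℕ) : ∃ n, n₀ ≤ n ∧ ∀ G : SimpleGraph (Fin n),
    (FG s (2 * (8 * (s + 2)) + 1)).Free G →
    (∀ G' : SimpleGraph (Fin n), (FG s (2 * (8 * (s + 2)) + 1)).Free G' →
      G'.edgeSet.ncard ≤ G.edgeSet.ncard) →
    (∀ G' : SimpleGraph (Fin n), (FG s (2 * (8 * (s + 2)) + 1)).Free G' →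
      G'.copyCount (pathGraph 3) ≤ G.copyCount (pathGraph 3)) → False := by
  classical
  obtain ⟨c, hc⟩ : ∃ c : ℕ, c = 8 * (s + 2) := ⟨_, rfl⟩
  rw [← hc]
  obtain ⟨k, hk⟩ : ∃ k : ℝ, k = (s : ℝ) + 2 := ⟨_, rfl⟩
  have hs : (0 : ℝ) ≤ s := by positivity
  have hk2 : 2 ≤ k := by linarith
  have hck : (c : ℝ) = 8 * k := by rw [hc, hk]; push_cast; ring
  obtain ⟨B, hB⟩ : ∃ B : ℝ, B = k * (4 * c + 10) := ⟨_, rfl⟩
  have hB0 : 0 < B := by rw [hB, hck]; positivity
  obtain ⟨η, hη⟩ : ∃ η : ℝ, η = 1 / (4 * k * (B + 1)) := ⟨_, rfl⟩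
  have hη0 : 0 < η := by rw [hη]; positivity
  obtain ⟨ε, hε, hev⟩ := structure_thm s (2 * c + 1) η hη0
  obtain ⟨n₁, hn₁⟩ := eventually_atTop.1 hev
  obtain ⟨n₂, hn₂⟩ := exists_nat_gt (4 * k * (B + 1))
  obtain ⟨n, hn, hmin⟩ := min_degree s (2 * c) ε hε (max n₀ (max n₁ n₂))
  refine ⟨n, (le_max_left _ _).trans hn, fun G hfree hE hP => ?_⟩
  have hn1 : n₁ ≤ n := (le_max_left _ _).trans ((le_max_right _ _).trans hn)
  have hn2 : n₂ ≤ n := (le_max_right _ _).trans ((le_max_right _ _).trans hn)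
  have hn3 : 4 * k * (B + 1) < n := hn₂.trans_le (by exact_mod_cast hn2)
  obtain ⟨col, hcol1, hcol2⟩ := hn₁ n hn1 G hfree (hmin G hfree hE)
  rw [← hk] at hcol2
  obtain ⟨L, hL⟩ : ∃ L : ℝ, L = η * n := ⟨_, rfl⟩
  obtain ⟨M, hM⟩ : ∃ M : ℝ, M = (1 / k - η) * n := ⟨_, rfl⟩
  obtain ⟨X, hX⟩ : ∃ X : ℝ, X = n / (4 * k) := ⟨_, rfl⟩
  rw [← hL] at hcol1
  rw [← hM] at hcol2
  have hL0 : 0 ≤ L := by rw [hL]; positivity
  have hX1 : B + 1 < X := by rw [hX, lt_div_iff₀ (by positivity)]; linarith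
  have hX2 : (B + 1) * L = X := by rw [hL, hX, hη]; field_simp
  have hX3 : M + L = 4 * X := by rw [hM, hL, hX]; field_simp; ring
  have hX4 : (n : ℝ) = 4 * k * X := by rw [hX]; field_simp
  have hMB : B * L + 3 * X = M := by linarith
  have hc0 : (0 : ℝ) ≤ c := by positivity
  have hBc : 2 * (4 * c + 10) ≤ B := by rw [hB]; gcongr
  have hdeg := inner_deg hfree col L M hL0 hcol1 hcol2 (by
    push_cast
    have : ((s : ℝ) + 1) * (2 * c + 2) + (2 * c + 3) ≤ B := by rw [hB, hk]; nlinarith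
    have : (((s : ℝ) + 1) * (2 * c + 2) + (2 * c + 3)) * L ≤ B * L := by gcongr
    linarith)
  obtain ⟨ν, hν⟩ : ∃ ν : Fin (s + 2) → ℝ,
      ∀ i, ν i = ((univ.filter fun x => col x = i).card : ℝ) := ⟨_, fun _ => rfl⟩
  have hBL : 0 ≤ B * L := by positivity
  have hνM : ∀ i, M ≤ ν i := fun i => by rw [hν]; exact hcol2 i
  have hνn : ∀ i j, i ≠ j → ν i + ν j ≤ n := by
    intro i j hij
    rw [hν, hν]
    have h1 : Disjoint (univ.filter fun x => col x = i) (univ.filter fun x => col x = j) := by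
      rw [Finset.disjoint_left]
      intro x hx hx'
      exact hij ((mem_filter.1 hx).2.symm.trans (mem_filter.1 hx').2)
    have h2 := card_le_univ ((univ.filter fun x => col x = i) ∪ (univ.filter fun x => col x = j))
    rw [card_union_of_disjoint h1, Fintype.card_fin] at h2
    exact_mod_cast h2
  -- degrees are bounded by the outer part plus the inner degree
  have hdg : ∀ x, (dg G x : ℝ) ≤ n - ν (col x) +
      ((univ.filter fun y => G.Adj x y ∧ col y = col x).card : ℝ) := by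
    intro x
    have h1 : (univ.filter fun y => G.Adj x y) ⊆ (univ.filter fun y => ¬ col y = col x) ∪
        (univ.filter fun y => G.Adj x y ∧ col y = col x) := by
      intro y hy
      have := (mem_filter.1 hy).2
      by_cases h : col y = col x <;> simp [h, this]
    have h2 := (card_le_card h1).trans (card_union_le _ _)
    have h3 := card_filter_add_card_filter_not (s := (univ : Finset (Fin n)))
      (fun y => col y = col x)
    rw [card_univ, Fintype.card_fin] at h3
    rw [dg_eq', hν]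
    have h4 : (univ.filter fun y => G.Adj x y).card + (univ.filter fun y => col y = col x).card ≤
        n + (univ.filter fun y => G.Adj x y ∧ col y = col x).card := by omega
    have h5 : ((univ.filter fun y => G.Adj x y).card : ℝ) +
        (univ.filter fun y => col y = col x).card ≤
        n + (univ.filter fun y => G.Adj x y ∧ col y = col x).card := by exact_mod_cast h4
    linarith
  -- the constructions
  have hcons : ∀ (col' : Fin n → Fin (s + 2)) (i0 : Fin (s + 2)) (ν' : Fin (s + 2) → ℝ),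
      (∀ i, ν' i = ((univ.filter fun x => col' x = i).card : ℝ)) → 2 * (c : ℝ) < ν' i0 →
      val (fun x => x) n c i0 ν' ≤ ∑ x, (dg G x : ℝ) ∧
      val (fun x => x * (x - 1)) n c i0 ν' ≤ ∑ x, (dg G x : ℝ) * (dg G x - 1) := by
    intro col' i0 ν' hν' h2c
    obtain ⟨G', hG1, hG2⟩ := construct (c := c) col' i0 (by
      rw [hν'] at h2c
      exact_mod_cast h2c)
    have hval : ∀ φ : ℝ → ℝ, val φ n c i0 ν' = ∑ x, φ (dg G' x) := by
      intro φ
      unfold val
      simp only [hν']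
      rw [← sum_classes col' (fun i => φ (n - ((univ.filter fun x => col' x = i).card : ℝ) +
        if i = i0 then 2 * (c : ℝ) else 0))]
      refine sum_congr rfl fun x _ => ?_
      rw [hG2 x, Fintype.card_fin]
    rw [hval, hval]
    constructor
    · have h1 := hE G' hG1
      have h2 : ∑ x, dg G' x ≤ ∑ x, dg G x := by rw [sum_dg, sum_dg]; omega
      exact_mod_cast h2
    · have h1 := hP G' hG1
      rw [copyCount_path, copyCount_path] at h1
      have h2 : ((∑ v, (dg G' v).choose 2 : ℕ) : ℝ) ≤ ((∑ v, (dg G v).choose 2 : ℕ) : ℝ) := by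
        exact_mod_cast h1
      push_cast [Nat.cast_choose_two] at h2
      rw [← sum_div, ← sum_div] at h2
      linarith
  have h2cM : 2 * (c : ℝ) + 1 < M := by linarith
  -- one class has many inner edges
  obtain ⟨i0, hi0⟩ : ∃ i0, 4 * ((2 * c : ℕ) : ℝ) * (((2 * c : ℕ) : ℝ) + 1) + 6 * ((2 * c : ℕ) : ℝ) * L <
      ((prs G (univ.filter fun x => col x = i0)).card : ℝ) := by
    by_contra hcon
    push Not at hcon
    have h1 := (hcons col 0 ν hν (by linarith [hνM 0])).1
    have h2 : ∑ x, (dg G x : ℝ) ≤ ∑ x, (n - ν (col x)) +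
        ∑ x, ((univ.filter fun y => G.Adj x y ∧ col y = col x).card : ℝ) := by
      rw [← sum_add_distrib]
      exact sum_le_sum fun x _ => hdg x
    have h3 : ∑ x, ((univ.filter fun y => G.Adj x y ∧ col y = col x).card : ℝ) =
        ∑ i, ((prs G (univ.filter fun x => col x = i)).card : ℝ) := by
      rw [← Finset.sum_fiberwise (s := univ) (g := col)]
      refine sum_congr rfl fun i _ => ?_
      rw [card_prs]
      push_cast
      refine sum_congr rfl fun x hx => ?_
      rw [filter_filter, (mem_filter.1 hx).2]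
      congr 2
      ext y
      simp [and_comm]
    have h4 : ∑ i, ((prs G (univ.filter fun x => col x = i)).card : ℝ) ≤
        k * (4 * (2 * c) * (2 * c + 1) + 6 * (2 * c) * L) := by
      refine (sum_le_sum fun i _ => hcon i).trans (le_of_eq ?_)
      rw [sum_const, card_univ, Fintype.card_fin, nsmul_eq_mul, hk]
      push_cast
      ring
    have h5 : val (fun x => x) n c 0 ν = ∑ x, (n - ν (col x)) + ν 0 * (2 * c) := by
      unfold val
      rw [sum_classes col (fun i => n - ν i)]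
      simp only [← hν, mul_add, sum_add_distrib, mul_ite, mul_zero, sum_ite_eq', mem_univ, if_true]
    have h6 : M * (2 * c) ≤ ν 0 * (2 * c) := by gcongr; exact hνM 0
    have h7 : M * (2 * c) ≤ (k * (4 * (2 * c + 1) + 6 * L)) * (2 * c) := by linarith
    have hc1 : (0 : ℝ) < 2 * c := by rw [hck]; positivity
    have h8 := le_of_mul_le_mul_right h7 hc1
    have h9 : k * 6 * L ≤ B * L := by
      rw [hB]
      gcongr
      linarith
    have h10 : k * (4 * (2 * c + 1)) ≤ 2 * B := by rw [hB]; nlinarith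
    nlinarith
  have hind := others_indep hfree col L M hL0 hcol1 hcol2 (by
    push_cast
    have : (s : ℝ) * (2 * c + 1) + (2 * (2 * c) + 5) ≤ B := by rw [hB, hk]; nlinarith
    have : ((s : ℝ) * (2 * c + 1) + (2 * (2 * c) + 5)) * L ≤ B * L := by gcongr
    linarith) hdeg i0 hi0
  have hdg2 : ∀ x, (dg G x : ℝ) ≤ n - ν (col x) + if col x = i0 then 2 * (c : ℝ) else 0 := by
    intro x
    refine (hdg x).trans ?_
    split_ifs with h
    · have : ((univ.filter fun y => G.Adj x y ∧ col y = col x).card : ℝ) ≤ (2 * c : ℕ) := by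
        exact_mod_cast hdeg x
      push_cast at this
      linarith
    · rw [filter_eq_empty_iff.2]
      · simp
      · exact fun y _ hy => h (hind x y hy.1 hy.2.symm)
  obtain ⟨j, hj⟩ := exists_ne i0
  have hup : ∀ φ : ℝ → ℝ, (∀ (a : ℕ) (b : ℝ), 1 ≤ b → a ≤ b → φ a ≤ φ b) →
      ∑ x, φ (dg G x) ≤ val φ n c i0 ν := by
    intro φ hφ
    unfold val
    simp only [hν]
    rw [← sum_classes col (fun i => φ (n - ((univ.filter fun x => col x = i).card : ℝ) +
      if i = i0 then 2 * (c : ℝ) else 0))]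
    refine sum_le_sum fun x _ => ?_
    rw [← hν]
    refine hφ _ _ ?_ (hdg2 x)
    obtain ⟨l, hl⟩ := exists_ne (col x)
    have h1 := hνn l (col x) hl
    have h2 := hνM l
    split_ifs <;> linarith
  have hup1 := hup (fun x => x) (fun a b _ h => h)
  have hup2 := hup (fun x => x * (x - 1)) (fun a b hb h => by
    have : (0 : ℝ) ≤ a := by positivity
    nlinarith)
  have hne : ∀ i, ∃ y, col y = i := by
    intro i
    have h1 : (0 : ℝ) < ((univ.filter fun x => col x = i).card : ℝ) := by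
      rw [← hν]
      linarith [hνM i]
    obtain ⟨y, hy⟩ := card_pos.1 (Nat.cast_pos.1 h1)
    exact ⟨y, (mem_filter.1 hy).2⟩
  obtain ⟨y, hy⟩ := hne j
  obtain ⟨z, hz⟩ := hne i0
  have hm1 := fun l => move_card col y i0 (by rw [hy]; exact hj) l
  have hm2 := fun l => move_card col z j (by rw [hz]; exact hj.symm) l
  simp only [← hν, hy, hz] at hm1 hm2
  have e1 := hcons (Function.update col y i0) i0 _ (fun i => rfl) (by
    rw [hm1]; simp [hj.symm]; linarith [hνM i0])
  have e2 := hcons (Function.update col z j) i0 _ (fun i => rfl) (by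
    rw [hm2]; simp [hj.symm]; linarith [hνM i0])
  have f1 := fun φ : ℝ → ℝ => val_move φ n c i0 j hj.symm ν
    (fun i => ((univ.filter fun x => Function.update col y i0 x = i).card : ℝ)) 1
    (by rw [hm1]; simp [hj.symm]) (by rw [hm1]; simp [hj]) (fun l h1 h2 => by rw [hm1]; simp [h1, h2])
  have f2 := fun φ : ℝ → ℝ => val_move φ n c i0 j hj.symm ν
    (fun i => ((univ.filter fun x => Function.update col z j x = i).card : ℝ)) (-1)
    (by rw [hm2]; simp [hj.symm]; ring) (by rw [hm2]; simp [hj])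
    (fun l h1 h2 => by rw [hm2]; simp [h1, h2])
  have hX0 : 0 ≤ X := by linarith
  refine final_arith n (ν i0) (ν j) c (by linarith) (by linarith [hνM j]) ?_
    (by linarith [hνn i0 j hj.symm, hνM i0]) ?_ ?_ ?_
  · have h1 : 3 * X ≤ ν j := by linarith [hνM j]
    have h2 : 3 * X * c ≤ ν j * c := by gcongr
    rw [hX4]
    rw [hck] at h2 ⊢
    nlinarith
  · have := f1 (fun x => x)
    linarith [e1.1]
  · have := f2 (fun x => x)
    linarith [e2.1]
  · have := f2 (fun x => x * (x - 1))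
    linarith [e2.2]

lemma chrom (s d : ℕ) : (s : ℕ∞) + 2 < (FG s (d + 1)).chromaticNumber := by
  classical
  by_contra hcon
  push Not at hcon
  have h1 : (FG s (d + 1)).Colorable (s + 2) := by
    rw [← chromaticNumber_le_iff_colorable]
    exact_mod_cast hcon
  obtain ⟨C⟩ := h1
  refine free_of_col (G := FG s (d + 1)) (s := s) (d := d) C 0 ?_ ?_ IsContained.rfl
  · intro u v huv hc
    exact absurd hc (C.valid huv)
  · intro u hu
    rw [filter_eq_empty_iff.2]
    · simp
    · intro w _ hw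
      exact C.valid hw.1 (hu.trans hw.2.symm)

end Pool.Agent.H563Z.GT
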